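import Pool.Agent.T9h74.Gor.Segre

/-!
# Segre products: the final forms

Unique representation, the numbers of the basis elements of given degree, and their symmetry.
-/

set_option autoImplicit false

namespace Pool.Agent.T9h74.Gor

open MvPolynomial Finset Pool.Agent.T9h29.NA

noncomputable section

universe u

variable {K : Type u} [Field K]

/-- Keep the variables `0, …, D`. -/
def cut (K : Type u) [Field K] (D : ℕ) : MvPolynomial ℕ K →ₐ[K] MvPolynomial (Fin (D + 1)) K :=
  aeval fun l => if h : l < D + 1 then X ⟨l, h⟩ else 0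

lemma rename_cut (D : ℕ) (g : MvPolynomial ℕ K) :
    rename (fun j : Fin (D + 1) => (j : ℕ)) (cut K D g) = res K 0 D g := by
  have : (rename (fun j : Fin (D + 1) => (j : ℕ))).comp (cut K D) = res K 0 D := by
    apply algHom_ext
    intro l
    rw [AlgHom.comp_apply, cut, aeval_X, res, aeval_X]
    by_cases h : l < D + 1
    · rw [dif_pos h, rename_X, if_pos ⟨Nat.zero_le _, by omega⟩]
    · rw [dif_neg h, map_zero, if_neg (by omega)]
  exact DFunLike.congr_fun this g

lemma cut_rename (D : ℕ) (c : MvPolynomial (Fin (D + 1)) K) :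
    cut K D (rename (fun j : Fin (D + 1) => (j : ℕ)) c) = c := by
  have : (cut K D).comp (rename (fun j : Fin (D + 1) => (j : ℕ))) = AlgHom.id K _ := by
    apply algHom_ext
    intro l
    rw [AlgHom.comp_apply, rename_X, cut, aeval_X, dif_pos l.2]
    rfl
  exact DFunLike.congr_fun this c

lemma degree_mapDomain_val {D : ℕ} (y : Fin (D + 1) →₀ ℕ) :
    (Finsupp.mapDomain (fun j : Fin (D + 1) => (j : ℕ)) y).degree = y.degree := by
  have : (Finsupp.degree (σ := ℕ) (R := ℕ)).comp
      (Finsupp.mapDomain.addMonoidHom fun j : Fin (D + 1) => (j : ℕ)) = Finsupp.degree := by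
    ext v
    simp
  exact DFunLike.congr_fun this y

lemma val_inj (D : ℕ) : Function.Injective (fun j : Fin (D + 1) => (j : ℕ)) := Fin.val_injective

lemma coeff_cut {D : ℕ} (g : MvPolynomial ℕ K) (y : Fin (D + 1) →₀ ℕ) :
    coeff y (cut K D g) = coeff (Finsupp.mapDomain (fun j : Fin (D + 1) => (j : ℕ)) y) g := by
  rw [← coeff_rename_mapDomain _ (val_inj D), rename_cut, coeff_res, if_pos]
  intro l hl
  by_contra h
  apply hl
  apply Finsupp.mapDomain_of_notMem_range
  rintro ⟨j, rfl⟩
  exact h ⟨Nat.zero_le _, Nat.lt_succ_iff.1 j.2⟩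

/-- The exponents of degree `n - d`. -/
def HF (D d n : ℕ) : Set (Fin (D + 1) →₀ ℕ) := {y | y.degree + d = n}

lemma cut_mem {D d n : ℕ} {g : MvPolynomial ℕ K} (hg : HomAt g d n) :
    cut K D g ∈ restrictSupport K (HF D d n) := by
  rw [mem_rS]
  intro y hy
  rw [coeff_cut] at hy
  have := hg _ hy
  rwa [degree_mapDomain_val] at this

lemma homAt_rename {D d n : ℕ} {c : MvPolynomial (Fin (D + 1)) K}
    (hc : c ∈ restrictSupport K (HF D d n)) :
    HomAt (rename (fun j : Fin (D + 1) => (j : ℕ)) c) d n := by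
  intro x hx
  obtain ⟨u, rfl, hu⟩ := coeff_rename_ne_zero _ _ _ hx
  rw [degree_mapDomain_val]
  exact (mem_rS.1 hc) u hu

section

variable {B : Type} [Fintype B]

/-- The parameters. -/
def the (K : Type u) [Field K] (e : B → ℕ) (l : Fin (∑ b, e b + 1)) : Pg K e := theta K e (l : ℕ)

lemma aeval_cut (e : B → ℕ) (g : MvPolynomial ℕ K) :
    aeval (the K e) (cut K _ g) = aeval (theta K e) g := by
  have : (aeval (the K e)).comp (cut K _) = (aeval (theta K e) : MvPolynomial ℕ K →ₐ[K] Pg K e) := by
    apply algHom_ext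
    intro l
    rw [AlgHom.comp_apply, cut, aeval_X, aeval_X]
    by_cases h : l < ∑ b, e b + 1
    · rw [dif_pos h, aeval_X]
      rfl
    · rw [dif_neg h, map_zero, theta_eq_zero (by omega)]
  exact DFunLike.congr_fun this g

lemma aeval_rename' (e : B → ℕ) (c : MvPolynomial (Fin (∑ b, e b + 1)) K) :
    aeval (theta K e) (rename (fun j : Fin (∑ b, e b + 1) => (j : ℕ)) c) = aeval (the K e) c := by
  rw [← aeval_cut, cut_rename]

/-- The graded form. -/
theorem segre_graded (K : Type u) [Field K] (e s : B → ℕ) (hs : ∀ b, s b ≤ e b) :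
    ∃ (m : ℕ) (k : Fin m → ℕ) (p : Fin m → Pg K e),
      (∀ i, k i ≤ ∑ b, e b) ∧ (∀ i, p i ∈ restrictSupport K (LS e s (k i))) ∧
      (∀ n (c : Fin m → MvPolynomial (Fin (∑ b, e b + 1)) K),
        (∀ i, c i ∈ restrictSupport K (HF _ (k i) n)) →
        ∑ i, aeval (the K e) (c i) * p i = 0 → ∀ i, c i = 0) ∧
      (∀ n f, f ∈ restrictSupport K (LS e s n) → ∃ c : Fin m → MvPolynomial (Fin (∑ b, e b + 1)) K,
        (∀ i, c i ∈ restrictSupport K (HF _ (k i) n)) ∧ f = ∑ i, aeval (the K e) (c i) * p i) := by
  obtain ⟨T, hT, d, v, hd, hv, inj, span⟩ := freeR_segre K B e s hs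
  let φ : T ≃ Fin (Fintype.card T) := Fintype.equivFin T
  refine ⟨Fintype.card T, fun i => d (φ.symm i), fun i => v (φ.symm i), fun i => hd _,
    fun i => hv _, fun n c hc h0 i => ?_, fun n f hf => ?_⟩
  · have h1 := inj n (fun t => rename (fun j : Fin (∑ b, e b + 1) => (j : ℕ)) (c (φ t))) ?_ ?_
      (φ.symm i)
    · rw [← rename_cut, φ.apply_symm_apply, cut_rename] at h1
      exact rename_injective _ (val_inj _) (by rw [h1, map_zero])
    · intro t
      apply homAt_rename
      have := hc (φ t)
      simp only [φ.symm_apply_apply] at this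
      exact this
    · rw [← h0, ← Equiv.sum_comp φ]
      refine Finset.sum_congr rfl fun t _ => ?_
      simp only [aeval_rename', φ.symm_apply_apply]
  · obtain ⟨g, hg, h1⟩ := span n f hf
    refine ⟨fun i => cut K _ (g (φ.symm i)), fun i => cut_mem (hg _), ?_⟩
    rw [h1, ← Equiv.sum_comp φ.symm]
    refine Finset.sum_congr rfl fun i _ => ?_
    rw [aeval_cut]

lemma aeval_mul_mem' {e s : B → ℕ} {d n : ℕ} {v : Pg K e}
    (hv : v ∈ restrictSupport K (LS e s d)) {c : MvPolynomial (Fin (∑ b, e b + 1)) K}
    (hc : c ∈ restrictSupport K (HF _ d n)) :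
    aeval (the K e) c * v ∈ restrictSupport K (LS e s n) := by
  rw [← aeval_rename']
  exact aeval_mul_mem (𝓥 := fun n => restrictSupport K (LS e s n))
    (fun j n p hp => theta_mul_mem j n p hp) hv (homAt_rename hc)

/-! ### Unique representation -/

omit [Fintype B] in
lemma LS_disjoint [Nonempty B] {e s : B → ℕ} {n n' : ℕ} {x : (Σ b, Fin (e b + 1)) →₀ ℕ}
    (h : x ∈ LS e s n) (h' : x ∈ LS e s n') : n = n' := by
  obtain ⟨b⟩ := ‹Nonempty B›
  rw [← h b, ← h' b]

theorem segre_unique [Nonempty B] {e s : B → ℕ} {m : ℕ} {k : Fin m → ℕ} {p : Fin m → Pg K e}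
    (hp : ∀ i, p i ∈ restrictSupport K (LS e s (k i)))
    (inj : ∀ n (c : Fin m → MvPolynomial (Fin (∑ b, e b + 1)) K),
        (∀ i, c i ∈ restrictSupport K (HF _ (k i) n)) →
        ∑ i, aeval (the K e) (c i) * p i = 0 → ∀ i, c i = 0)
    (span : ∀ n f, f ∈ restrictSupport K (LS e s n) →
      ∃ c : Fin m → MvPolynomial (Fin (∑ b, e b + 1)) K,
        (∀ i, c i ∈ restrictSupport K (HF _ (k i) n)) ∧ f = ∑ i, aeval (the K e) (c i) * p i)
    (f : Pg K e) (hf : f ∈ restrictSupport K {x | ∃ n, x ∈ LS e s n}) :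
    ∃! c : Fin m → MvPolynomial (Fin (∑ b, e b + 1)) K, f = ∑ i, aeval (the K e) (c i) * p i := by
  classical
  have hex : ∃ c : Fin m → MvPolynomial (Fin (∑ b, e b + 1)) K,
      f = ∑ i, aeval (the K e) (c i) * p i := by
    have h1 : ∀ x : (Σ b, Fin (e b + 1)) →₀ ℕ, ∃ c : Fin m → MvPolynomial (Fin (∑ b, e b + 1)) K,
        monomial x (coeff x f) = ∑ i, aeval (the K e) (c i) * p i := by
      intro x
      by_cases hx : coeff x f = 0
      · exact ⟨fun _ => 0, by rw [hx]; simp⟩
      · obtain ⟨n, hn⟩ := mem_rS.1 hf x hx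
        obtain ⟨c, _, hc⟩ := span n (monomial x (coeff x f)) (mem_rS.2 fun y hy => by
          rw [coeff_monomial] at hy
          split_ifs at hy with h
          · rw [← h]; exact hn
          · exact absurd rfl hy)
        exact ⟨c, hc⟩
    choose c hc using h1
    refine ⟨fun i => ∑ x ∈ f.support, c x i, ?_⟩
    conv_lhs => rw [f.as_sum]
    rw [Finset.sum_congr rfl fun x _ => hc x, Finset.sum_comm]
    refine Finset.sum_congr rfl fun i _ => ?_
    rw [map_sum, Finset.sum_mul]
  have huniq : ∀ c : Fin m → MvPolynomial (Fin (∑ b, e b + 1)) K,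
      ∑ i, aeval (the K e) (c i) * p i = 0 → ∀ i, c i = 0 := by
    intro c h0
    -- the homogeneous components
    let g : ℕ → Fin m → MvPolynomial (Fin (∑ b, e b + 1)) K := fun n i =>
      if k i ≤ n then homogeneousComponent (n - k i) (c i) else 0
    have hg : ∀ n i, g n i ∈ restrictSupport K (HF _ (k i) n) := by
      intro n i
      rw [mem_rS]
      intro y hy
      by_cases h : k i ≤ n
      · simp only [g, if_pos h, coeff_homogeneousComponent] at hy
        split_ifs at hy with h1
        · show y.degree + k i = n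
          omega
        · exact absurd rfl hy
      · simp only [g, if_neg h, coeff_zero] at hy
        exact absurd rfl hy
    obtain ⟨N, hN⟩ : ∃ N, ∀ i, k i + (c i).totalDegree < N := by
      refine ⟨∑ i, (k i + (c i).totalDegree) + 1, fun i => Nat.lt_succ_of_le ?_⟩
      exact Finset.single_le_sum (f := fun i => k i + (c i).totalDegree)
        (fun _ _ => Nat.zero_le _) (Finset.mem_univ i)
    have hsum : ∀ i, ∑ n ∈ range N, g n i = c i := by
      intro i
      ext y
      rw [MvPolynomial.coeff_sum]
      have h1 : ∀ n ∈ range N, coeff y (g n i) = if n = y.degree + k i then coeff y (c i) else 0 := by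
        intro n _
        by_cases h : k i ≤ n
        · simp only [g, if_pos h, coeff_homogeneousComponent]
          by_cases h2 : n = y.degree + k i
          · rw [if_pos h2, if_pos (by omega)]
          · rw [if_neg h2, if_neg (by omega)]
        · simp only [g, if_neg h, coeff_zero]
          rw [if_neg (by omega)]
      rw [Finset.sum_congr rfl h1, Finset.sum_ite_eq']
      split_ifs with h2
      · rfl
      · by_contra h3
        apply h2
        rw [Finset.mem_range]
        have h4 : y.degree ≤ (c i).totalDegree :=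
          le_totalDegree (mem_support_iff.2 (Ne.symm h3))
        have := hN i
        omega
    have hF : ∀ n, ∑ i, aeval (the K e) (g n i) * p i ∈ restrictSupport K (LS e s n) := fun n =>
      Submodule.sum_mem _ fun i _ => aeval_mul_mem' (hp i) (hg n i)
    have hF0 : ∑ n ∈ range N, ∑ i, aeval (the K e) (g n i) * p i = 0 := by
      rw [← h0, Finset.sum_comm]
      refine Finset.sum_congr rfl fun i _ => ?_
      rw [← Finset.sum_mul, ← map_sum, hsum]
    have hFn : ∀ n ∈ range N, ∑ i, aeval (the K e) (g n i) * p i = 0 := by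
      intro n hn
      ext x
      rw [coeff_zero]
      by_contra hx
      have h1 := mem_rS.1 (hF n) x hx
      have h2 := congrArg (coeff x) hF0
      rw [MvPolynomial.coeff_sum, coeff_zero, Finset.sum_eq_single_of_mem n hn] at h2
      · exact hx h2
      · intro n' _ hne
        by_contra h3
        exact hne (LS_disjoint (mem_rS.1 (hF n') x h3) h1)
    intro i
    rw [← hsum i]
    exact Finset.sum_eq_zero fun n hn => inj n (g n) (hg n) (hFn n hn) i
  obtain ⟨c, hc⟩ := hex
  refine ⟨c, hc, fun c' hc' => ?_⟩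
  have hc'' : f = ∑ i, aeval (the K e) (c' i) * p i := hc'
  have h1 := huniq (fun i => c' i - c i) (by
    have : ∑ i, aeval (the K e) (c' i - c i) * p i = (∑ i, aeval (the K e) (c' i) * p i)
        - ∑ i, aeval (the K e) (c i) * p i := by
      rw [← Finset.sum_sub_distrib]
      refine Finset.sum_congr rfl fun i _ => ?_
      rw [map_sub, sub_mul]
    rw [this, ← hc'', ← hc, sub_self])
  funext i
  exact sub_eq_zero.1 (h1 i)

/-! ### Counting -/

/-- The number of the monomials of degree `n - d` in `D + 1` variables. -/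
def cnt (D d n : ℕ) : ℕ := if d ≤ n then (n - d + D).choose D else 0

/-- Exponent vectors as functions. -/
def HFequiv (D d n : ℕ) (h : d ≤ n) : HF D d n ≃ {P : Fin (D + 1) → ℕ // ∑ i, P i = n - d} :=
  Finsupp.equivFunOnFinite.subtypeEquiv fun y => by
    show y.degree + d = n ↔ ∑ i, y i = n - d
    rw [Finsupp.degree_eq_sum]
    omega

instance (D d n : ℕ) : Finite (HF D d n) := by
  by_cases h : d ≤ n
  · exact Finite.of_equiv _ ((Sym.equivNatSumOfFintype (Fin (D + 1)) (n - d)).trans
      (HFequiv D d n h).symm)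
  · refine @Finite.of_subsingleton _ ⟨fun x => ?_⟩
    have := x.2
    exfalso
    have h1 : (x : Fin (D + 1) →₀ ℕ).degree + d = n := x.2
    omega

lemma card_HF (D d n : ℕ) : Nat.card (HF D d n) = cnt D d n := by
  rw [cnt]
  split_ifs with h
  · rw [Nat.card_congr (HFequiv D d n h), ← Nat.card_congr (Sym.equivNatSumOfFintype _ _),
      Nat.card_eq_fintype_card, Sym.card_sym_eq_choose, Fintype.card_fin]
    rw [show D + 1 + (n - d) - 1 = n - d + D by omega, ← Nat.choose_symm (by omega)]
    congr 1
    omega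
  · rw [Nat.card_eq_zero]
    left
    exact ⟨fun x => by
      have h1 : (x : Fin (D + 1) →₀ ℕ).degree + d = n := x.2
      omega⟩

/-- The exponents block by block. -/
def LSequiv (e s : B → ℕ) (n : ℕ) : LS e s n ≃ ∀ b, HF (e b) (s b) n where
  toFun x b := ⟨Finsupp.equivFunOnFinite.symm fun j => x.1 ⟨b, j⟩, by
    show Finsupp.degree _ + s b = n
    rw [Finsupp.degree_eq_sum]
    exact x.2 b⟩
  invFun y := ⟨Finsupp.equivFunOnFinite.symm fun v => (y v.1).1 v.2, fun b => by
    have h1 : (y b).1.degree + s b = n := (y b).2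
    rw [Finsupp.degree_eq_sum] at h1
    exact h1⟩
  left_inv x := by
    ext v
    rfl
  right_inv y := by
    ext b j
    rfl

lemma card_LS (e s : B → ℕ) (n : ℕ) : Nat.card (LS e s n) = ∏ b, cnt (e b) (s b) n := by
  rw [Nat.card_congr (LSequiv e s n), Nat.card_pi]
  exact Finset.prod_congr rfl fun b _ => card_HF _ _ _

/-- The number of the exponents is given by the degrees of the basis elements. -/
theorem card_eq_sum {e s : B → ℕ} {m : ℕ} {k : Fin m → ℕ} {p : Fin m → Pg K e}
    (hp : ∀ i, p i ∈ restrictSupport K (LS e s (k i)))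
    (inj : ∀ n (c : Fin m → MvPolynomial (Fin (∑ b, e b + 1)) K),
        (∀ i, c i ∈ restrictSupport K (HF _ (k i) n)) →
        ∑ i, aeval (the K e) (c i) * p i = 0 → ∀ i, c i = 0)
    (span : ∀ n f, f ∈ restrictSupport K (LS e s n) →
      ∃ c : Fin m → MvPolynomial (Fin (∑ b, e b + 1)) K,
        (∀ i, c i ∈ restrictSupport K (HF _ (k i) n)) ∧ f = ∑ i, aeval (the K e) (c i) * p i)
    (n : ℕ) : ∏ b, cnt (e b) (s b) n = ∑ i, cnt (∑ b, e b) (k i) n := by
  let Φ : (∀ i, restrictSupport K (HF (∑ b, e b) (k i) n)) →ₗ[K] restrictSupport K (LS e s n) :=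
    { toFun := fun c => ⟨∑ i, aeval (the K e) (c i).1 * p i,
        Submodule.sum_mem _ fun i _ => aeval_mul_mem' (hp i) (c i).2⟩
      map_add' := fun c c' => by
        ext1
        show ∑ i, aeval (the K e) ((c i).1 + (c' i).1) * p i = ∑ i, aeval (the K e) (c i).1 * p i
          + ∑ i, aeval (the K e) (c' i).1 * p i
        rw [← Finset.sum_add_distrib]
        refine Finset.sum_congr rfl fun i _ => ?_
        rw [map_add, add_mul]
      map_smul' := fun a c => by
        ext1
        show ∑ i, aeval (the K e) (a • (c i).1) * p i = a • ∑ i, aeval (the K e) (c i).1 * p i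
        rw [Finset.smul_sum]
        refine Finset.sum_congr rfl fun i _ => ?_
        rw [map_smul, smul_mul_assoc] }
  have hΦ : Function.Bijective Φ := by
    constructor
    · rw [injective_iff_map_eq_zero]
      intro c hc
      funext i
      ext1
      exact inj n (fun i => (c i).1) (fun i => (c i).2) (congrArg Subtype.val hc) i
    · rintro ⟨f, hf⟩
      obtain ⟨c, hc, rfl⟩ := span n f hf
      exact ⟨fun i => ⟨c i, hc i⟩, rfl⟩
  have h1 := LinearEquiv.finrank_eq (LinearEquiv.ofBijective Φ hΦ)
  have hfin : ∀ i, Module.Finite K (restrictSupport K (HF (∑ b, e b) (k i) n)) := fun i =>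
    Module.Finite.of_basis (basisRestrictSupport K _)
  have hfree : ∀ i, Module.Free K (restrictSupport K (HF (∑ b, e b) (k i) n)) := fun i =>
    Module.Free.of_basis (basisRestrictSupport K _)
  rw [Module.finrank_pi_fintype, Module.finrank_eq_nat_card_basis (basisRestrictSupport K _),
    card_LS] at h1
  rw [← h1]
  refine Finset.sum_congr rfl fun i _ => ?_
  rw [Module.finrank_eq_nat_card_basis (basisRestrictSupport K _), card_HF]

end

end

end Pool.Agent.T9h74.Gor
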