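import Pool.Agent.T9h74.Gor.Step
import Pool.Agent.T9h29.NA.Defs

/-!
# Segre products of any number of factors

The modules `⨁_n {polynomials of degree n - s_b in the block b}`, `0 ≤ s_b ≤ e_b`, are free over the
polynomials in the parameters `theta K e`.
-/

set_option autoImplicit false

namespace Pool.Agent.T9h74.Gor

open MvPolynomial Finset Pool.Agent.T9h29.NA

noncomputable section

universe u

section transfer

variable {K : Type*} [CommRing K] {C₁ C₂ : Type*} [CommRing C₁] [Algebra K C₁] [CommRing C₂]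
  [Algebra K C₂] {f : ℕ} {V₁ : ℕ → C₁} {V₂ : ℕ → C₂} {𝓥₁ : ℕ → Submodule K C₁}
  {𝓥₂ : ℕ → Submodule K C₂}

lemma map_aeval' (ι : C₁ →ₐ[K] C₂) (hV : ∀ l, ι (V₁ l) = V₂ l) (g : MvPolynomial ℕ K) :
    ι (aeval V₁ g) = aeval V₂ g := by
  have : ι.comp (aeval V₁) = aeval V₂ := by
    apply algHom_ext
    intro l
    rw [AlgHom.comp_apply, aeval_X, aeval_X, hV]
  exact DFunLike.congr_fun this g

theorem FreeR.pull (ι : C₁ →ₐ[K] C₂) (hinj : Function.Injective ι)
    (hmem : ∀ n p, p ∈ 𝓥₁ n → ι p ∈ 𝓥₂ n) (hsurj : ∀ n p, p ∈ 𝓥₂ n → ∃ q ∈ 𝓥₁ n, ι q = p)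
    (hV : ∀ l, ι (V₁ l) = V₂ l) (h : FreeR K f V₂ 𝓥₂) : FreeR K f V₁ 𝓥₁ := by
  obtain ⟨T, hT, d, v, hd, hv, inj, span⟩ := h
  choose w hw hwv using fun t => hsurj _ _ (hv t)
  refine ⟨T, hT, d, w, hd, hw, fun n g hg h0 => inj n g hg ?_, fun n p hp => ?_⟩
  · have h1 := congrArg ι h0
    rw [map_zero, map_sum] at h1
    rw [← h1]
    refine Finset.sum_congr rfl fun t _ => ?_
    rw [map_mul, map_aeval' ι hV, hwv]
  · obtain ⟨g, hg, h1⟩ := span n _ (hmem n p hp)
    refine ⟨g, hg, hinj ?_⟩
    rw [h1, map_sum]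
    refine Finset.sum_congr rfl fun t _ => ?_
    rw [map_mul, map_aeval' ι hV, hwv]

theorem FreeR.push (ι : C₁ →ₐ[K] C₂) (hinj : Function.Injective ι)
    (hmem : ∀ n p, p ∈ 𝓥₁ n → ι p ∈ 𝓥₂ n) (hsurj : ∀ n p, p ∈ 𝓥₂ n → ∃ q ∈ 𝓥₁ n, ι q = p)
    (hV : ∀ l, ι (V₁ l) = V₂ l) (h : FreeR K f V₁ 𝓥₁) : FreeR K f V₂ 𝓥₂ := by
  obtain ⟨T, hT, d, v, hd, hv, inj, span⟩ := h
  refine ⟨T, hT, d, fun t => ι (v t), hd, fun t => hmem _ _ (hv t), fun n g hg h0 =>
    inj n g hg (hinj ?_), fun n p hp => ?_⟩
  · rw [map_zero, map_sum, ← h0]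
    refine Finset.sum_congr rfl fun t _ => ?_
    rw [map_mul, map_aeval' ι hV]
  · obtain ⟨q, hq, rfl⟩ := hsurj n p hp
    obtain ⟨g, hg, h1⟩ := span n _ hq
    refine ⟨g, hg, ?_⟩
    rw [h1, map_sum]
    refine Finset.sum_congr rfl fun t _ => ?_
    rw [map_mul, map_aeval' ι hV]

end transfer

section rename

variable {K : Type*} [CommRing K] {σ τ : Type*}

lemma mem_rS {S : Set (σ →₀ ℕ)} {p : MvPolynomial σ K} :
    p ∈ restrictSupport K S ↔ ∀ x, coeff x p ≠ 0 → x ∈ S := by
  rw [mem_restrictSupport_iff]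
  constructor
  · intro h x hx
    exact h (by simpa [mem_support_iff] using hx)
  · intro h x hx
    exact h x (by simpa [mem_support_iff] using hx)

lemma rename_mem {κ : σ → τ} {S : Set (σ →₀ ℕ)} {L : Set (τ →₀ ℕ)}
    (h : ∀ x ∈ S, Finsupp.mapDomain κ x ∈ L) {p : MvPolynomial σ K} (hp : p ∈ restrictSupport K S) :
    rename κ p ∈ restrictSupport K L := by
  rw [mem_rS] at hp ⊢
  intro x hx
  obtain ⟨u, rfl, hu⟩ := coeff_rename_ne_zero _ _ _ hx
  exact h u (hp u hu)

lemma exists_rename {κ : σ → τ} {S : Set (σ →₀ ℕ)} {L : Set (τ →₀ ℕ)}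
    (h : ∀ z ∈ L, ∃ x ∈ S, Finsupp.mapDomain κ x = z) {p : MvPolynomial τ K}
    (hp : p ∈ restrictSupport K L) : ∃ q ∈ restrictSupport K S, rename κ q = p := by
  classical
  rw [mem_rS] at hp
  have h1 : ∀ z : τ →₀ ℕ, ∃ x : σ →₀ ℕ, coeff z p ≠ 0 → x ∈ S ∧ Finsupp.mapDomain κ x = z := by
    intro z
    by_cases hz : coeff z p = 0
    · exact ⟨0, fun h => absurd hz h⟩
    · obtain ⟨x, hx, hxz⟩ := h z (hp z hz)
      exact ⟨x, fun _ => ⟨hx, hxz⟩⟩
  choose x hx using h1
  refine ⟨∑ z ∈ p.support, monomial (x z) (coeff z p), ?_, ?_⟩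
  · refine Submodule.sum_mem _ fun z hz => ?_
    rw [mem_rS]
    intro y hy
    rw [coeff_monomial] at hy
    split_ifs at hy with h2
    · rw [← h2]; exact (hx z hy).1
    · exact absurd rfl hy
  · rw [map_sum]
    conv_rhs => rw [p.as_sum]
    refine Finset.sum_congr rfl fun z hz => ?_
    rw [rename_monomial, (hx z (mem_support_iff.1 hz)).2]

end rename

/-! ### Blocks -/

section blocks

variable {K : Type u} [Field K] {B : Type} [Fintype B]

/-- Exponents of degree `n - s_b` in the block `b`. -/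
def LS (e s : B → ℕ) (n : ℕ) : Set ((Σ b, Fin (e b + 1)) →₀ ℕ) :=
  {m | ∀ b, (∑ j, m ⟨b, j⟩) + s b = n}

/-- The polynomial whose coefficients are the parameters. -/
def thP (K : Type u) [Field K] (e : B → ℕ) : Polynomial (Pg K e) :=
  ∏ b, ∑ j : Fin (e b + 1), Polynomial.C (X ⟨b, j⟩ : Pg K e) * Polynomial.X ^ (j : ℕ)

lemma theta_eq (e : B → ℕ) (l : ℕ) : theta K e l = (thP K e).coeff l := rfl

lemma natDegree_fac {R : Type*} [CommRing R] (e : ℕ) (c : Fin (e + 1) → R) :
    (∑ j : Fin (e + 1), Polynomial.C (c j) * Polynomial.X ^ (j : ℕ)).natDegree ≤ e := by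
  refine Polynomial.natDegree_sum_le_of_forall_le _ _ fun j _ => ?_
  exact (Polynomial.natDegree_C_mul_X_pow_le _ _).trans (by omega)

lemma theta_eq_zero {e : B → ℕ} {l : ℕ} (h : ∑ b, e b < l) : theta K e l = 0 := by
  rw [theta_eq]
  apply Polynomial.coeff_eq_zero_of_natDegree_lt
  refine lt_of_le_of_lt ?_ h
  rw [thP]
  exact (Polynomial.natDegree_prod_le _ _).trans (Finset.sum_le_sum fun b _ => natDegree_fac _ _)

lemma coeff_fac {R : Type*} [CommRing R] (e : ℕ) (c : Fin (e + 1) → R) (i : ℕ) :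
    (∑ j : Fin (e + 1), Polynomial.C (c j) * Polynomial.X ^ (j : ℕ)).coeff i
      = if h : i < e + 1 then c ⟨i, h⟩ else 0 := by
  rw [Polynomial.finsetSum_coeff]
  simp only [Polynomial.coeff_C_mul_X_pow]
  split_ifs with h
  · rw [Finset.sum_eq_single ⟨i, h⟩]
    · simp
    · intro j _ hj
      rw [if_neg]
      rintro rfl
      exact hj rfl
    · intro h'; exact absurd (Finset.mem_univ _) h'
  · refine Finset.sum_eq_zero fun j _ => ?_
    rw [if_neg]
    omega

lemma mul_mem_rS {σ : Type*} {S T U : Set (σ →₀ ℕ)} (h : ∀ x ∈ S, ∀ y ∈ T, x + y ∈ U)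
    {p q : MvPolynomial σ K} (hp : p ∈ restrictSupport K S) (hq : q ∈ restrictSupport K T) :
    p * q ∈ restrictSupport K U := by
  classical
  rw [mem_rS] at *
  intro z hz
  rw [coeff_mul] at hz
  obtain ⟨⟨x, y⟩, hxy, h1⟩ := Finset.exists_ne_zero_of_sum_ne_zero hz
  rw [← Finset.HasAntidiagonal.mem_antidiagonal.1 hxy]
  exact h x (hp x (left_ne_zero_of_mul h1)) y (hq y (right_ne_zero_of_mul h1))

omit [Fintype B] in
open scoped Classical in
lemma coeff_prod_mem (e : B → ℕ) (J : Finset B) : ∀ l : ℕ,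
    (∏ b ∈ J, ∑ j : Fin (e b + 1), Polynomial.C (X ⟨b, j⟩ : Pg K e) * Polynomial.X ^ (j : ℕ)).coeff l
      ∈ restrictSupport K {m : (Σ b, Fin (e b + 1)) →₀ ℕ |
        ∀ b, (∑ j, m ⟨b, j⟩) = if b ∈ J then 1 else 0} := by
  induction J using Finset.induction_on with
  | empty =>
    intro l
    rw [Finset.prod_empty, mem_rS, Polynomial.coeff_one]
    intro x hx
    split_ifs at hx with h
    · rw [coeff_one] at hx
      split_ifs at hx with h1
      · rw [← h1]
        simp
      · exact absurd rfl hx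
    · exact absurd (coeff_zero x) hx
  | insert b J hb ih =>
    intro l
    rw [Finset.prod_insert hb, Polynomial.coeff_mul]
    refine Submodule.sum_mem _ fun ij _ => ?_
    refine mul_mem_rS (S := {m | ∀ c, (∑ j, m ⟨c, j⟩) = if c = b then 1 else 0}) ?_ ?_ (ih ij.2)
    · intro x hx y hy c
      simp only [Finsupp.add_apply, Finset.sum_add_distrib]
      rw [hx c, hy c]
      by_cases hcb : c = b
      · subst hcb
        simp [hb]
      · simp [hcb]
    · rw [coeff_fac, mem_rS]
      intro x hx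
      split_ifs at hx with h
      · rw [coeff_X] at hx
        split_ifs at hx with h1
        · rw [← h1]
          intro c
          by_cases hcb : c = b
          · subst hcb
            rw [if_pos rfl, Finset.sum_eq_single ⟨ij.1, h⟩]
            · simp
            · intro j _ hj
              rw [Finsupp.single_apply, if_neg]
              intro h2
              apply hj
              simpa using h2.symm
            · intro h'; exact absurd (Finset.mem_univ _) h'
          · rw [if_neg hcb]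
            refine Finset.sum_eq_zero fun j _ => ?_
            rw [Finsupp.single_apply, if_neg]
            intro h2
            exact hcb (congrArg Sigma.fst h2).symm
        · exact absurd rfl hx
      · exact absurd (coeff_zero x) hx

lemma theta_mul_mem {e s : B → ℕ} (l n : ℕ) (p : Pg K e) (hp : p ∈ restrictSupport K (LS e s n)) :
    theta K e l * p ∈ restrictSupport K (LS e s (n + 1)) := by
  classical
  refine mul_mem_rS ?_ (coeff_prod_mem (K := K) e Finset.univ l) hp
  intro x hx y hy b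
  have h1 := hx b
  have h2 := hy b
  rw [if_pos (Finset.mem_univ _)] at h1
  simp only [Finsupp.add_apply, Finset.sum_add_distrib]
  omega

/-! #### No blocks -/

lemma freeR_empty [IsEmpty B] (e s : B → ℕ) :
    FreeR K (∑ b, e b) (theta K e) (fun n => restrictSupport K (LS e s n)) := by
  classical
  have hD : ∑ b, e b = 0 := by simp
  have hth : ∀ l, theta K e l = if l = 0 then 1 else 0 := by
    intro l
    rw [theta_eq, thP, Finset.univ_eq_empty, Finset.prod_empty, Polynomial.coeff_one]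
  have hLS : ∀ n, LS e s n = Set.univ := by
    intro n
    ext m
    simp [LS]
  have haev : ∀ (n : ℕ) (a : K), aeval (theta K e) (monomial (Finsupp.single 0 n) a)
      = (MvPolynomial.C a : Pg K e) := by
    intro n a
    have h1 : ((Finsupp.single 0 n : ℕ →₀ ℕ).prod fun i k => theta K e i ^ k) = 1 := by
      rw [Finsupp.prod_single_index (h := fun i k => theta K e i ^ k) (pow_zero _), hth,
        if_pos rfl, one_pow]
    rw [aeval_monomial, h1, mul_one]
    rfl
  rw [hD]
  refine ⟨Unit, inferInstance, fun _ => 0, fun _ => 1, fun _ => le_rfl, fun _ => ?_, ?_, ?_⟩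
  · show _ ∈ restrictSupport K (LS e s 0)
    rw [hLS, mem_rS]
    intro x _
    trivial
  · intro n g hg h0 t
    rw [Fintype.sum_unique, mul_one] at h0
    have h1 : res K 0 0 (g t) = monomial (Finsupp.single 0 n) (coeff (Finsupp.single 0 n) (g t)) := by
      ext x
      rw [coeff_res, coeff_monomial]
      by_cases hx : Finsupp.single 0 n = x
      · rw [if_pos hx, if_pos, hx]
        intro l hl
        rw [← hx, Finsupp.single_apply] at hl
        split_ifs at hl with h2
        · omega
        · exact absurd rfl hl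
      · rw [if_neg hx]
        split_ifs with h2
        · by_contra h3
          apply hx
          have h4 := hg t x h3
          have h5 : x = Finsupp.single 0 (x 0) := by
            ext l
            rw [Finsupp.single_apply]
            split_ifs with h6
            · rw [h6]
            · by_contra h7
              have := h2 l h7
              omega
          rw [h5, Finsupp.degree_single] at h4
          rw [h5]
          congr 1
          exact h4.symm
        · rfl
    have h2 : aeval (theta K e) (res K 0 0 (g t)) = aeval (theta K e) (g t) := by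
      apply aeval_res
      intro l hl
      rw [hth, if_neg (by omega)]
    rw [show (default : Unit) = t from rfl, ← h2, h1, haev, C_eq_zero] at h0
    rw [h1, h0, monomial_zero]
  · intro n p _
    refine ⟨fun _ => monomial (Finsupp.single 0 n) (coeff 0 p), fun _ x hx => ?_, ?_⟩
    · rw [coeff_monomial] at hx
      split_ifs at hx with h
      · rw [← h, Finsupp.degree_single, add_zero]
      · exact absurd rfl hx
    · rw [Fintype.sum_unique, haev, mul_one]
      ext x
      rw [coeff_C]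
      have : x = 0 := Subsingleton.elim _ _
      rw [this, if_pos rfl]

/-! #### Renumbering the blocks -/

/-- The map of the variables. -/
def kap {α β : Type} (φ : α → β) (e : β → ℕ) : (Σ a, Fin (e (φ a) + 1)) → Σ b, Fin (e b + 1) :=
  fun p => ⟨φ p.1, p.2⟩

lemma kap_injective {α β : Type} {φ : α → β} (hφ : Function.Injective φ) (e : β → ℕ) :
    Function.Injective (kap φ e) := by
  rintro ⟨a, i⟩ ⟨b, j⟩ h
  simp only [kap, Sigma.mk.injEq] at h
  obtain ⟨h1, h2⟩ := h
  obtain rfl := hφ h1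
  rw [eq_of_heq h2]

lemma freeR_equiv {α β : Type} [Fintype α] [Fintype β] (φ : α ≃ β) (e s : β → ℕ)
    (h : FreeR K (∑ a, e (φ a)) (theta K fun a => e (φ a))
      (fun n => restrictSupport K (LS (fun a => e (φ a)) (fun a => s (φ a)) n))) :
    FreeR K (∑ b, e b) (theta K e) (fun n => restrictSupport K (LS e s n)) := by
  have hinj := kap_injective φ.injective e
  have hsurj : Function.Surjective (kap φ e) := by
    rintro ⟨b, j⟩
    obtain ⟨a, rfl⟩ := φ.surjective b
    exact ⟨⟨a, j⟩, rfl⟩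
  rw [← Equiv.sum_comp φ]
  refine FreeR.push (rename (kap φ e)) (rename_injective _ hinj)
    (fun n p hp => rename_mem ?_ hp) (fun n p hp => exists_rename ?_ hp) ?_ h
  · intro x hx b
    obtain ⟨a, rfl⟩ := φ.surjective b
    rw [← hx a]
    congr 1
    refine Finset.sum_congr rfl fun j _ => ?_
    rw [show (⟨φ a, j⟩ : Σ b, Fin (e b + 1)) = kap φ e ⟨a, j⟩ from rfl,
      Finsupp.mapDomain_apply hinj]
  · intro z hz
    refine ⟨Finsupp.comapDomain (kap φ e) z hinj.injOn, fun a => ?_,
      Finsupp.mapDomain_comapDomain _ hinj _ ?_⟩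
    · rw [← hz (φ a)]
      rfl
    · rw [hsurj.range_eq]
      exact Set.subset_univ _
  · intro l
    have h1 : (thP K fun a => e (φ a)).map (rename (kap φ e)).toRingHom = thP K e := by
      rw [thP, thP, Polynomial.map_prod, ← Equiv.prod_comp φ]
      refine Finset.prod_congr rfl fun a _ => ?_
      rw [Polynomial.map_sum]
      refine Finset.sum_congr rfl fun j _ => ?_
      rw [Polynomial.map_mul, Polynomial.map_C, Polynomial.map_pow, Polynomial.map_X]
      congr 2
      show rename (kap φ e) (X _) = _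
      rw [rename_X]
      rfl
    rw [theta_eq, theta_eq, ← h1, Polynomial.coeff_map]
    rfl

/-! #### One more block -/

/-- The map of the variables. -/
def kao (e : Option B → ℕ) : (Σ b, Fin (e b + 1)) → ℕ ⊕ (Σ b, Fin (e (some b) + 1))
  | ⟨none, j⟩ => Sum.inl j
  | ⟨some b, j⟩ => Sum.inr ⟨b, j⟩

omit [Fintype B] in
lemma kao_injective (e : Option B → ℕ) : Function.Injective (kao e) := by
  rintro ⟨_ | a, i⟩ ⟨_ | b, j⟩ h
  · simp only [kao, Sum.inl.injEq] at h
    rw [Fin.ext h]
  · simp [kao] at h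
  · simp [kao] at h
  · simp only [kao, Sum.inr.injEq, Sigma.mk.injEq] at h
    obtain ⟨rfl, h2⟩ := h
    rw [eq_of_heq h2]

/-- Exponents in the intermediate ring. -/
def LO (e s : Option B → ℕ) (n : ℕ) : Set (ℕ ⊕ (Σ b, Fin (e (some b) + 1)) →₀ ℕ) :=
  {z | (∀ i, z (Sum.inl i) ≠ 0 → i ≤ e none) ∧
    (∑ i ∈ range (e none + 1), z (Sum.inl i)) + s none = n ∧
    ∀ b, (∑ j, z (Sum.inr ⟨b, j⟩)) + s (some b) = n}

omit [Fintype B] in
lemma mapDomain_kao_mem {e s : Option B → ℕ} {n : ℕ} {x : (Σ b, Fin (e b + 1)) →₀ ℕ}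
    (hx : x ∈ LS e s n) : Finsupp.mapDomain (kao e) x ∈ LO e s n := by
  have hinj := kao_injective e
  refine ⟨fun i hi => ?_, ?_, fun b => ?_⟩
  · by_contra h
    apply hi
    apply Finsupp.mapDomain_of_notMem_range
    rintro ⟨⟨_ | b, j⟩, h1⟩
    · simp only [kao, Sum.inl.injEq] at h1
      omega
    · simp [kao] at h1
  · rw [← hx none]
    congr 1
    rw [Finset.sum_range]
    refine Finset.sum_congr rfl fun j _ => ?_
    rw [show (Sum.inl (j : ℕ) : ℕ ⊕ (Σ b, Fin (e (some b) + 1))) = kao e ⟨none, j⟩ from rfl,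
      Finsupp.mapDomain_apply hinj]
  · rw [← hx (some b)]
    congr 1
    refine Finset.sum_congr rfl fun j _ => ?_
    rw [show (Sum.inr ⟨b, j⟩ : ℕ ⊕ (Σ b, Fin (e (some b) + 1))) = kao e ⟨some b, j⟩ from rfl,
      Finsupp.mapDomain_apply hinj]

omit [Fintype B] in
lemma exists_kao {e s : Option B → ℕ} {n : ℕ} {z : ℕ ⊕ (Σ b, Fin (e (some b) + 1)) →₀ ℕ}
    (hz : z ∈ LO e s n) : ∃ x ∈ LS e s n, Finsupp.mapDomain (kao e) x = z := by
  have hinj := kao_injective e
  obtain ⟨h1, h2, h3⟩ := hz
  refine ⟨Finsupp.comapDomain (kao e) z hinj.injOn, ?_,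
    Finsupp.mapDomain_comapDomain _ hinj _ ?_⟩
  · rintro (_ | b)
    · rw [← h2]
      congr 1
      rw [Finset.sum_range]
      rfl
    · rw [← h3 b]
      rfl
  · intro v hv
    rw [Finset.mem_coe, Finsupp.mem_support_iff] at hv
    rcases v with i | ⟨b, j⟩
    · have := h1 i hv
      exact ⟨⟨none, ⟨i, by omega⟩⟩, rfl⟩
    · exact ⟨⟨some b, j⟩, rfl⟩

lemma degree_eq_sum_range {x : ℕ →₀ ℕ} {e : ℕ} (h : ∀ i, x i ≠ 0 → i ≤ e) :
    x.degree = ∑ i ∈ range (e + 1), x i := by
  rw [Finsupp.degree_apply]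
  refine Finset.sum_subset (fun i hi => ?_) fun i _ hi => ?_
  · have := h i (Finsupp.mem_support_iff.1 hi)
    rw [Finset.mem_range]
    omega
  · simpa using hi

omit [Fintype B] in
lemma mem_LO {e s : Option B → ℕ} {n : ℕ} {x : ℕ →₀ ℕ} {y : (Σ b, Fin (e (some b) + 1)) →₀ ℕ} :
    Finsupp.sumElim x y ∈ LO e s n ↔ ((∀ i, x i ≠ 0 → i ≤ e none) ∧ x.degree + s none = n) ∧
      y ∈ LS (fun b => e (some b)) (fun b => s (some b)) n := by
  constructor
  · rintro ⟨h1, h2, h3⟩
    refine ⟨⟨h1, ?_⟩, h3⟩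
    rw [degree_eq_sum_range h1]
    exact h2
  · rintro ⟨⟨h1, h2⟩, h3⟩
    refine ⟨h1, ?_, h3⟩
    rw [degree_eq_sum_range h1] at h2
    exact h2

omit [Fintype B] in
lemma mem_NW_iff {e s : Option B → ℕ} {n : ℕ}
    {p : MvPolynomial (ℕ ⊕ (Σ b, Fin (e (some b) + 1))) K} :
    sumAlgEquiv K _ _ p ∈ NW (e none) (s none)
      (fun n => restrictSupport K (LS (fun b => e (some b)) (fun b => s (some b)) n)) n ↔
      p ∈ restrictSupport K (LO e s n) := by
  rw [mem_NW, mem_rS]
  constructor
  · intro h z hz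
    have hz' : z = Finsupp.sumElim (Finsupp.comapDomain Sum.inl z Sum.inl_injective.injOn)
        (Finsupp.comapDomain Sum.inr z Sum.inr_injective.injOn) :=
      (Finsupp.comapDomain_sumElim_comapDomain z).symm
    rw [hz', ← coeff_iter] at hz
    rw [hz', mem_LO]
    obtain ⟨h1, h2⟩ := h (Finsupp.comapDomain Sum.inl z Sum.inl_injective.injOn)
    refine ⟨h2 ?_, mem_rS.1 h1 _ hz⟩
    intro h0
    rw [h0, coeff_zero] at hz
    exact hz rfl
  · intro h x
    refine ⟨mem_rS.2 fun y hy => ?_, fun hx => ?_⟩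
    · rw [coeff_iter] at hy
      exact (mem_LO.1 (h _ hy)).2
    · obtain ⟨y, hy⟩ := ne_zero_iff.1 hx
      rw [coeff_iter] at hy
      exact (mem_LO.1 (h _ hy)).1

/-- The inclusion of the rings. -/
def iot (K : Type u) [Field K] (e : Option B → ℕ) :
    Pg K e →ₐ[K] MvPolynomial ℕ (Pg K fun b => e (some b)) :=
  (sumAlgEquiv K ℕ (Σ b, Fin (e (some b) + 1))).toAlgHom.comp (rename (kao e))

lemma iot_theta (e : Option B → ℕ) (l : ℕ) :
    iot K e (theta K e l) = nth (e none) (∑ b, e (some b)) (theta K fun b => e (some b)) l := by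
  have hX0 : ∀ j, iot K e (X ⟨none, j⟩) = X (j : ℕ) := by
    intro j
    rw [iot, AlgHom.comp_apply, rename_X]
    exact sumAlgEquiv_X_inl _ _ _ _
  have hX1 : ∀ b j, iot K e (X ⟨some b, j⟩) = MvPolynomial.C (X ⟨b, j⟩) := by
    intro b j
    rw [iot, AlgHom.comp_apply, rename_X]
    exact sumAlgEquiv_X_inr _ _ _ _
  have h1 : (thP K e).map (iot K e).toRingHom =
      (∑ j : Fin (e none + 1), Polynomial.C (X (j : ℕ) : MvPolynomial ℕ (Pg K fun b => e (some b)))
        * Polynomial.X ^ (j : ℕ)) * (thP K fun b => e (some b)).map MvPolynomial.C := by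
    rw [thP, thP, Polynomial.map_prod, Fintype.prod_option, Polynomial.map_prod]
    congr 1
    · rw [Polynomial.map_sum]
      refine Finset.sum_congr rfl fun j _ => ?_
      rw [Polynomial.map_mul, Polynomial.map_C, Polynomial.map_pow, Polynomial.map_X]
      congr 2
      exact hX0 j
    · refine Finset.prod_congr rfl fun b _ => ?_
      rw [Polynomial.map_sum, Polynomial.map_sum]
      refine Finset.sum_congr rfl fun j _ => ?_
      rw [Polynomial.map_mul, Polynomial.map_C, Polynomial.map_pow, Polynomial.map_X,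
        Polynomial.map_mul, Polynomial.map_C, Polynomial.map_pow, Polynomial.map_X]
      congr 2
      exact hX1 b j
  have h2 : iot K e (theta K e l) = ((thP K e).map (iot K e).toRingHom).coeff l := by
    rw [Polynomial.coeff_map, theta_eq]
    rfl
  rw [h2, h1, Polynomial.coeff_mul, nth]
  have h3 : ∀ i ∈ Icc 0 (e none), (∑ j ∈ Icc 0 (∑ b, e (some b)),
      if i + j = l then (X i : MvPolynomial ℕ (Pg K fun b => e (some b)))
        * MvPolynomial.C (theta K (fun b => e (some b)) j) else 0)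
      = if i ≤ l then X i * MvPolynomial.C (theta K (fun b => e (some b)) (l - i)) else 0 := by
    intro i _
    split_ifs with h
    · by_cases h' : l - i ≤ ∑ b, e (some b)
      · rw [Finset.sum_eq_single_of_mem (l - i) (Finset.mem_Icc.2 ⟨Nat.zero_le _, h'⟩)]
        · rw [if_pos (by omega)]
        · intro j _ hj
          rw [if_neg (by omega)]
      · rw [theta_eq_zero (by omega), map_zero, mul_zero]
        refine Finset.sum_eq_zero fun j hj => ?_
        rw [Finset.mem_Icc] at hj
        rw [if_neg (by omega)]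
    · refine Finset.sum_eq_zero fun j hj => ?_
      rw [if_neg (by omega)]
  rw [Finset.sum_congr rfl h3, Finset.Nat.sum_antidiagonal_eq_sum_range_succ_mk]
  simp only [coeff_fac, Polynomial.coeff_map, ← theta_eq]
  rw [← Finset.sum_filter]
  have h4 : ∀ i ∈ range (l + 1), (if h : i < e none + 1 then
      (X ((⟨i, h⟩ : Fin (e none + 1)) : ℕ) : MvPolynomial ℕ (Pg K fun b => e (some b))) else 0)
      * MvPolynomial.C (theta K (fun b => e (some b)) (l - i)) =
      if i ≤ e none then X i * MvPolynomial.C (theta K (fun b => e (some b)) (l - i)) else 0 := by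
    intro i _
    by_cases h : i ≤ e none
    · rw [dif_pos (by omega), if_pos h]
    · rw [dif_neg (by omega), if_neg h, zero_mul]
  rw [Finset.sum_congr rfl h4, ← Finset.sum_filter]
  refine Finset.sum_congr ?_ fun _ _ => rfl
  ext i
  simp only [Finset.mem_filter, Finset.mem_range, Finset.mem_Icc]
  omega

lemma freeR_option (e s : Option B → ℕ) (hs : ∀ b, s b ≤ e b)
    (h : FreeR K (∑ b, e (some b)) (theta K fun b => e (some b))
      (fun n => restrictSupport K (LS (fun b => e (some b)) (fun b => s (some b)) n))) :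
    FreeR K (∑ b, e b) (theta K e) (fun n => restrictSupport K (LS e s n)) := by
  rw [Fintype.sum_option]
  have h1 := FreeR.add_factor (K := K) (fun j n p hp => theta_mul_mem j n p hp)
    (fun j hj => theta_eq_zero hj) (hs none) h
  refine FreeR.pull (iot K e) ?_ ?_ ?_ (iot_theta e) h1
  · exact (sumAlgEquiv K ℕ _).injective.comp (rename_injective _ (kao_injective e))
  · intro n p hp
    exact mem_NW_iff.2 (rename_mem (fun x hx => mapDomain_kao_mem hx) hp)
  · intro n p hp
    obtain ⟨q, rfl⟩ := (sumAlgEquiv K ℕ _).surjective p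
    obtain ⟨q', hq', rfl⟩ := exists_rename (fun z hz => exists_kao hz) (mem_NW_iff.1 hp)
    exact ⟨q', hq', rfl⟩

end blocks

/-- **Freeness of the Segre modules.** -/
theorem freeR_segre (K : Type u) [Field K] (B : Type) [Fintype B] (e s : B → ℕ)
    (hs : ∀ b, s b ≤ e b) :
    FreeR K (∑ b, e b) (theta K e) (fun n => restrictSupport K (LS e s n)) := by
  revert e s
  refine Fintype.induction_empty_option (P := fun B _ => ∀ (e s : B → ℕ), (∀ b, s b ≤ e b) →
    FreeR K (∑ b, e b) (theta K e) (fun n => restrictSupport K (LS e s n))) ?_ ?_ ?_ B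
  · intro α β _ φ ih e s hs
    let _ : Fintype α := Fintype.ofEquiv β φ.symm
    exact freeR_equiv φ e s (ih (fun a => e (φ a)) (fun a => s (φ a)) fun a => hs (φ a))
  · exact fun e s _ => freeR_empty e s
  · exact fun α _ ih e s hs => freeR_option e s hs (ih _ _ fun b => hs (some b))

end

end Pool.Agent.T9h74.Gor
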