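import Pool.Agent.T9h74.Gor.Two

/-!
# Segre products: adding one factor

`C` is a commutative `K`-algebra with elements `V_0, …, V_f` and subspaces `𝓥_n` with a basis over the
`V`-polynomials. Then the polynomials in `U_0, …, U_e` of degree `n - s` with coefficients in `𝓥_n` have
a basis over the polynomials in `θ_l = ∑_{i+j=l} U_i V_j`.
-/

set_option autoImplicit false

namespace Pool.Agent.T9h74.Gor

open MvPolynomial Finset

noncomputable section

section one

variable {K : Type*} [CommRing K]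

lemma coeff_iter {σ τ : Type*} (p : MvPolynomial (σ ⊕ τ) K) (x : σ →₀ ℕ) (y : τ →₀ ℕ) :
    coeff y (coeff x (sumAlgEquiv K σ τ p)) = coeff (Finsupp.sumElim x y) p := by
  classical
  induction p using MvPolynomial.induction_on' with
  | monomial z a =>
    have h1 : sumAlgEquiv K σ τ (monomial z a) =
        monomial (Finsupp.comapDomain Sum.inl z Sum.inl_injective.injOn)
          (monomial (Finsupp.comapDomain Sum.inr z Sum.inr_injective.injOn) a) := by
      show AddMonoidAlgebra.curryAlgEquiv K ((AddMonoidAlgebra.domCongr K K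
        Finsupp.sumFinsuppAddEquivProdFinsupp) (AddMonoidAlgebra.single z a)) = _
      rw [AddMonoidAlgebra.domCongr_single]
      have : Finsupp.sumFinsuppAddEquivProdFinsupp z =
        (Finsupp.comapDomain Sum.inl z Sum.inl_injective.injOn,
          Finsupp.comapDomain Sum.inr z Sum.inr_injective.injOn) := rfl
      rw [this, AddMonoidAlgebra.curryAlgEquiv_single]
      rfl
    rw [h1, coeff_monomial, coeff_monomial]
    by_cases h : z = Finsupp.sumElim x y
    · subst h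
      rw [Finsupp.comapDomain_inl_sumElim, Finsupp.comapDomain_inr_sumElim, if_pos rfl, if_pos rfl,
        coeff_monomial, if_pos rfl]
    · rw [if_neg h]
      split_ifs with h2
      · rw [coeff_monomial, if_neg]
        intro h3
        apply h
        rw [← h2, ← h3, Finsupp.comapDomain_sumElim_comapDomain]
      · rw [coeff_zero]
  | add p q hp hq => rw [map_add, coeff_add, coeff_add, coeff_add, hp, hq]

lemma dU_sumElim (x y : ℕ →₀ ℕ) : dU (Finsupp.sumElim x y) = x.degree := by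
  have h : ∀ z : ℕ →₀ ℕ, dU (Finsupp.mapDomain Sum.inl z) = z.degree := by
    have : dU.comp (Finsupp.mapDomain.addMonoidHom Sum.inl) = Finsupp.degree (σ := ℕ) (R := ℕ) := by
      ext v
      simp
    exact fun z => DFunLike.congr_fun this z
  have h' : ∀ z : ℕ →₀ ℕ, dU (Finsupp.mapDomain Sum.inr z) = 0 := by
    have : dU.comp (Finsupp.mapDomain.addMonoidHom Sum.inr) = (0 : (ℕ →₀ ℕ) →+ ℕ) := by
      ext v
      simp
    exact fun z => DFunLike.congr_fun this z
  rw [Finsupp.sumElim_eq_add, map_add, h, h', add_zero]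

lemma dV_sumElim (x y : ℕ →₀ ℕ) : dV (Finsupp.sumElim x y) = y.degree := by
  have h : ∀ z : ℕ →₀ ℕ, dV (Finsupp.mapDomain Sum.inr z) = z.degree := by
    have : dV.comp (Finsupp.mapDomain.addMonoidHom Sum.inr) = Finsupp.degree (σ := ℕ) (R := ℕ) := by
      ext v
      simp
    exact fun z => DFunLike.congr_fun this z
  have h' : ∀ z : ℕ →₀ ℕ, dV (Finsupp.mapDomain Sum.inl z) = 0 := by
    have : dV.comp (Finsupp.mapDomain.addMonoidHom Sum.inl) = (0 : (ℕ →₀ ℕ) →+ ℕ) := by
      ext v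
      simp
    exact fun z => DFunLike.congr_fun this z
  rw [Finsupp.sumElim_eq_add, map_add, h, h', zero_add]

open scoped Classical in
lemma coeff_res (lo hi : ℕ) (g : MvPolynomial ℕ K) (x : ℕ →₀ ℕ) :
    coeff x (res K lo hi g) = if ∀ l, x l ≠ 0 → lo ≤ l ∧ l ≤ hi then coeff x g else 0 := by
  classical
  induction g using MvPolynomial.induction_on' with
  | monomial z a =>
    have h1 : res K lo hi (monomial z a) =
        if ∀ l, z l ≠ 0 → lo ≤ l ∧ l ≤ hi then monomial z a else 0 := by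
      rw [res, aeval_monomial, algebraMap_eq]
      split_ifs with h
      · rw [monomial_eq (s := z)]
        congr 1
        refine Finsupp.prod_congr fun w hw => ?_
        rw [if_pos (h w (Finsupp.mem_support_iff.1 hw))]
      · push Not at h
        obtain ⟨l, hl, hl'⟩ := h
        have : (z.prod fun w k => (if lo ≤ w ∧ w ≤ hi then (X w : MvPolynomial ℕ K) else 0) ^ k)
            = 0 := by
          rw [Finsupp.prod]
          apply Finset.prod_eq_zero (Finsupp.mem_support_iff.2 hl)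
          rw [if_neg (fun h => absurd (hl' h.1) (by omega)), zero_pow hl]
        rw [this, mul_zero]
    rw [h1]
    by_cases hxy : z = x
    · subst hxy
      split_ifs <;> simp
    · rw [coeff_monomial, if_neg hxy]
      split_ifs <;> simp [coeff_monomial, hxy]
  | add p q hp hq =>
    rw [map_add, coeff_add, hp, hq, coeff_add]
    split_ifs <;> simp

/-- Freeness of a graded system. -/
def FreeR (K : Type*) [CommRing K] {C : Type*} [CommRing C] [Algebra K C] (f : ℕ) (V : ℕ → C)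
    (𝓥 : ℕ → Submodule K C) : Prop :=
  ∃ (T : Type) (_ : Fintype T) (d : T → ℕ) (v : T → C), (∀ t, d t ≤ f) ∧ (∀ t, v t ∈ 𝓥 (d t)) ∧
    (∀ (n : ℕ) (g : T → MvPolynomial ℕ K), (∀ t, HomAt (g t) (d t) n) →
      ∑ t, aeval V (g t) * v t = 0 → ∀ t, res K 0 f (g t) = 0) ∧
    (∀ n p, p ∈ 𝓥 n → ∃ g : T → MvPolynomial ℕ K, (∀ t, HomAt (g t) (d t) n) ∧
      p = ∑ t, aeval V (g t) * v t)

variable {C : Type*} [CommRing C] [Algebra K C]

/-- Polynomials in `U_0, …, U_e` of degree `n - s` with coefficients in `𝓥 n`. -/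
def NW (e s : ℕ) (𝓥 : ℕ → Submodule K C) (n : ℕ) : Submodule K (MvPolynomial ℕ C) where
  carrier := {p | ∀ x, coeff x p ∈ 𝓥 n ∧ (coeff x p ≠ 0 → (∀ i, x i ≠ 0 → i ≤ e) ∧
    x.degree + s = n)}
  add_mem' := by
    intro p q hp hq x
    refine ⟨by rw [coeff_add]; exact Submodule.add_mem _ (hp x).1 (hq x).1, fun h => ?_⟩
    rw [coeff_add] at h
    by_cases h1 : coeff x p = 0
    · rw [h1, zero_add] at h
      exact (hq x).2 h
    · exact (hp x).2 h1
  zero_mem' := fun x => ⟨by rw [coeff_zero]; exact Submodule.zero_mem _,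
    fun h => absurd (coeff_zero x) h⟩
  smul_mem' := by
    intro a p hp x
    refine ⟨by rw [coeff_smul]; exact Submodule.smul_mem _ _ (hp x).1, fun h => ?_⟩
    rw [coeff_smul] at h
    exact (hp x).2 fun h' => h (by rw [h', smul_zero])

lemma mem_NW {e s : ℕ} {𝓥 : ℕ → Submodule K C} {n : ℕ} {p : MvPolynomial ℕ C} :
    p ∈ NW e s 𝓥 n ↔ ∀ x, coeff x p ∈ 𝓥 n ∧ (coeff x p ≠ 0 → (∀ i, x i ≠ 0 → i ≤ e) ∧
      x.degree + s = n) := Iff.rfl

/-- The new parameters. -/
def nth (e f : ℕ) (V : ℕ → C) (l : ℕ) : MvPolynomial ℕ C :=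
  ∑ i ∈ Icc 0 e, ∑ j ∈ Icc 0 f, if i + j = l then X i * MvPolynomial.C (V j) else 0

/-- The map `U_i ↦ U_i`, `V_j ↦ V_j`. -/
def ph (V : ℕ → C) : MvPolynomial (ℕ ⊕ ℕ) K →ₐ[K] MvPolynomial ℕ C :=
  aeval (Sum.elim X fun j => MvPolynomial.C (V j))

lemma ph_eq (V : ℕ → C) (q : MvPolynomial (ℕ ⊕ ℕ) K) :
    ph V q = mapAlgHom (aeval V : MvPolynomial ℕ K →ₐ[K] C) (sumAlgEquiv K ℕ ℕ q) := by
  have : ph V = (mapAlgHom (aeval V : MvPolynomial ℕ K →ₐ[K] C)).comp
      (sumAlgEquiv K ℕ ℕ : MvPolynomial (ℕ ⊕ ℕ) K →ₐ[K] MvPolynomial ℕ (MvPolynomial ℕ K)) := by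
    apply algHom_ext
    rintro (i | i)
    · rw [AlgHom.comp_apply]
      simp [ph]
    · rw [AlgHom.comp_apply]
      simp [ph]
  exact DFunLike.congr_fun this q

lemma coeff_ph (V : ℕ → C) (q : MvPolynomial (ℕ ⊕ ℕ) K) (x : ℕ →₀ ℕ) :
    coeff x (ph V q) = aeval V (coeff x (sumAlgEquiv K ℕ ℕ q)) := by
  rw [ph_eq]
  show coeff x (map _ _) = _
  rw [coeff_map]
  rfl

lemma ph_th {e f : ℕ} (V : ℕ → C) (l : ℕ) : ph V (th K e f 0 0 l) = nth e f V l := by
  rw [th, nth, map_sum]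
  refine Finset.sum_congr rfl fun i _ => ?_
  rw [map_sum]
  refine Finset.sum_congr rfl fun j _ => ?_
  split_ifs with h
  · simp [ph]
  · rw [map_zero]

lemma ph_aeval {e f : ℕ} (V : ℕ → C) (g : MvPolynomial ℕ K) :
    ph V (aeval (th K e f 0 0) g) = aeval (nth e f V) g := by
  have : (ph V).comp (aeval (th K e f 0 0)) = (aeval (nth e f V) :
      MvPolynomial ℕ K →ₐ[K] MvPolynomial ℕ C) := by
    apply algHom_ext
    intro l
    rw [AlgHom.comp_apply, aeval_X, aeval_X, ph_th]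
  exact DFunLike.congr_fun this g

/-- The coefficients of the elements of `M`. -/
lemma coeff_of_mem {e f s d n : ℕ} {q : MvPolynomial (ℕ ⊕ ℕ) K} (hq : q ∈ M K e f 0 0 s d n)
    (x : ℕ →₀ ℕ) :
    HomAt (coeff x (sumAlgEquiv K ℕ ℕ q)) d n ∧
      (coeff x (sumAlgEquiv K ℕ ℕ q) ≠ 0 → (∀ i, x i ≠ 0 → i ≤ e) ∧ x.degree + s = n) ∧
      res K 0 f (coeff x (sumAlgEquiv K ℕ ℕ q)) = coeff x (sumAlgEquiv K ℕ ℕ q) := by
  rw [mem_M] at hq
  refine ⟨fun y hy => ?_, fun h => ?_, ?_⟩
  · rw [coeff_iter] at hy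
    obtain ⟨_, _, _, h4⟩ := hq _ hy
    rwa [dV_sumElim] at h4
  · obtain ⟨y, hy⟩ := ne_zero_iff.1 h
    rw [coeff_iter] at hy
    obtain ⟨h1, _, h3, _⟩ := hq _ hy
    rw [dU_sumElim] at h3
    exact ⟨fun i hi => (h1 i hi).2, h3⟩
  · ext y
    rw [coeff_res]
    split_ifs with h
    · rfl
    · by_contra hne
      apply h
      rw [coeff_iter] at hne
      obtain ⟨_, h2, _, _⟩ := hq _ (Ne.symm hne)
      exact fun l hl => h2 l hl

lemma mem_of_coeff {e f s d n : ℕ} {q : MvPolynomial (ℕ ⊕ ℕ) K}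
    (h : ∀ x, HomAt (coeff x (sumAlgEquiv K ℕ ℕ q)) d n ∧
      (coeff x (sumAlgEquiv K ℕ ℕ q) ≠ 0 → (∀ i, x i ≠ 0 → i ≤ e) ∧ x.degree + s = n) ∧
      res K 0 f (coeff x (sumAlgEquiv K ℕ ℕ q)) = coeff x (sumAlgEquiv K ℕ ℕ q)) :
    q ∈ M K e f 0 0 s d n := by
  rw [mem_M]
  intro z hz
  have hz' : z = Finsupp.sumElim (Finsupp.comapDomain Sum.inl z Sum.inl_injective.injOn)
      (Finsupp.comapDomain Sum.inr z Sum.inr_injective.injOn) :=
    (Finsupp.comapDomain_sumElim_comapDomain z).symm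
  set x := Finsupp.comapDomain Sum.inl z Sum.inl_injective.injOn
  set y := Finsupp.comapDomain Sum.inr z Sum.inr_injective.injOn
  rw [hz'] at hz ⊢
  rw [← coeff_iter] at hz
  obtain ⟨h1, h2, h3⟩ := h x
  obtain ⟨h4, h5⟩ := h2 fun h0 => hz (by rw [h0, coeff_zero])
  refine ⟨fun j hj => ⟨Nat.zero_le _, h4 j hj⟩, fun j hj => ?_, ?_, ?_⟩
  · rw [← h3, coeff_res] at hz
    split_ifs at hz with h6
    · exact h6 j hj
    · exact absurd rfl hz
  · rw [dU_sumElim]; exact h5
  · rw [dV_sumElim]; exact h1 y hz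

section closure

variable {V : ℕ → C} {𝓥 : ℕ → Submodule K C}

lemma monomial_mul_mem (hV : ∀ j n p, p ∈ 𝓥 n → V j * p ∈ 𝓥 (n + 1)) {v : C} {d : ℕ}
    (hv : v ∈ 𝓥 d) (m : ℕ) : ∀ (x : ℕ →₀ ℕ) (a : K), x.degree = m →
    aeval V (monomial x a) * v ∈ 𝓥 (m + d) := by
  induction m with
  | zero =>
    intro x a hx
    have h0 : x = 0 := (Finsupp.degree_eq_zero_iff x).1 hx
    subst h0
    rw [aeval_monomial, Finsupp.prod_zero_index, mul_one, ← Algebra.smul_def, zero_add]
    exact Submodule.smul_mem _ _ hv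
  | succ m ih =>
    intro x a hx
    obtain ⟨l, y, rfl, hy⟩ := exists_single_add hx
    rw [show (monomial (y + Finsupp.single l 1) a : MvPolynomial ℕ K) = X l * monomial y a by
      rw [X, monomial_mul, one_mul, add_comm], map_mul, aeval_X, mul_assoc]
    rw [show m + 1 + d = m + d + 1 by ring]
    exact hV _ _ _ (ih y a hy)

lemma aeval_mul_mem (hV : ∀ j n p, p ∈ 𝓥 n → V j * p ∈ 𝓥 (n + 1)) {v : C} {d n : ℕ}
    (hv : v ∈ 𝓥 d) {g : MvPolynomial ℕ K} (hg : HomAt g d n) : aeval V g * v ∈ 𝓥 n := by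
  rw [g.as_sum, map_sum, Finset.sum_mul]
  refine Submodule.sum_mem _ fun x hx => ?_
  have h1 := hg x (mem_support_iff.1 hx)
  rw [← h1]
  exact monomial_mul_mem hV hv _ x _ rfl

/-- **Adding one factor.** -/
theorem FreeR.add_factor {f : ℕ} (hV : ∀ j n p, p ∈ 𝓥 n → V j * p ∈ 𝓥 (n + 1))
    (hV0 : ∀ j, f < j → V j = 0) {e s : ℕ} (hs : s ≤ e) (h : FreeR K f V 𝓥) :
    FreeR K (e + f) (nth e f V) (NW e s 𝓥) := by
  classical
  obtain ⟨T, hT, d, v, hd, hv, inj, span⟩ := h
  have h2 : ∀ t, Free K e f 0 0 s (d t) 0 := fun t =>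
    free_two K _ e f 0 0 s (d t) 0 (Nat.zero_le _) (Nat.zero_le _) rfl (Nat.zero_le _)
      (by omega) (Nat.zero_le _) (by have := hd t; omega)
  choose T' hT' d' β hd' hβ inj' span' using h2
  refine ⟨Σ t, T' t, inferInstance, fun x => d' x.1 x.2,
    fun x => ph V (β x.1 x.2) * MvPolynomial.C (v x.1), ?_, ?_, ?_, ?_⟩
  · rintro ⟨t, u⟩
    have := hd' t u
    show d' t u ≤ e + f
    omega
  · rintro ⟨t, u⟩
    rw [mem_NW]
    intro x
    show coeff x (ph V (β t u) * MvPolynomial.C (v t)) ∈ 𝓥 (d' t u) ∧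
      (coeff x (ph V (β t u) * MvPolynomial.C (v t)) ≠ 0 → (∀ i, x i ≠ 0 → i ≤ e) ∧
        x.degree + s = d' t u)
    obtain ⟨h1, h2, h3⟩ := coeff_of_mem (hβ t u) x
    rw [mul_comm, coeff_C_mul, coeff_ph, mul_comm]
    refine ⟨aeval_mul_mem hV (hv t) h1, fun h4 => h2 fun h5 => h4 ?_⟩
    rw [h5, map_zero, zero_mul]
  · intro n g hg h0
    -- the elements `q t`
    set q : T → MvPolynomial (ℕ ⊕ ℕ) K := fun t =>
      ∑ u, aeval (th K e f 0 0) (g ⟨t, u⟩) * β t u with hq
    have hqM : ∀ t, q t ∈ M K e f 0 0 s (d t) n := fun t =>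
      Submodule.sum_mem _ fun u _ => aeval_mem (hβ t u) (hg ⟨t, u⟩)
    have h1 : ∑ t, ph V (q t) * MvPolynomial.C (v t) = 0 := by
      rw [← h0, Fintype.sum_sigma]
      refine Finset.sum_congr rfl fun t _ => ?_
      rw [hq]
      simp only
      rw [map_sum, Finset.sum_mul]
      refine Finset.sum_congr rfl fun u _ => ?_
      rw [map_mul, ph_aeval, mul_assoc]
    have h2 : ∀ t, q t = 0 := by
      intro t
      apply (sumAlgEquiv K ℕ ℕ).injective
      rw [map_zero]
      ext1 x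
      rw [coeff_zero, ← (coeff_of_mem (hqM t) x).2.2]
      refine inj n (fun t => coeff x (sumAlgEquiv K ℕ ℕ (q t)))
        (fun t => (coeff_of_mem (hqM t) x).1) ?_ t
      have h3 := congrArg (coeff x) h1
      rw [coeff_zero, MvPolynomial.coeff_sum] at h3
      rw [← h3]
      refine Finset.sum_congr rfl fun t _ => ?_
      rw [mul_comm (ph V (q t)), coeff_C_mul, coeff_ph, mul_comm]
    rintro ⟨t, u⟩
    have := inj' t (fun u => g ⟨t, u⟩) (h2 t) u
    rwa [Nat.add_zero] at this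
  · intro n p hp
    rw [mem_NW] at hp
    have h1 : ∀ x, ∃ g : T → MvPolynomial ℕ K, (∀ t, HomAt (g t) (d t) n) ∧
      coeff x p = ∑ t, aeval V (g t) * v t := fun x => span n _ (hp x).1
    choose g hg hgp using h1
    set q : T → MvPolynomial (ℕ ⊕ ℕ) K := fun t =>
      (sumAlgEquiv K ℕ ℕ).symm (∑ x ∈ p.support, monomial x (res K 0 f (g x t))) with hq
    have hcoeff : ∀ t x, coeff x (sumAlgEquiv K ℕ ℕ (q t)) =
        if x ∈ p.support then res K 0 f (g x t) else 0 := by
      intro t x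
      rw [hq]
      simp only
      rw [AlgEquiv.apply_symm_apply, MvPolynomial.coeff_sum]
      simp only [coeff_monomial]
      rw [Finset.sum_ite_eq' p.support x]
    have hqM : ∀ t, q t ∈ M K e f 0 0 s (d t) n := by
      intro t
      apply mem_of_coeff
      intro x
      rw [hcoeff]
      split_ifs with hx
      · refine ⟨fun y hy => ?_, fun _ => (hp x).2 (mem_support_iff.1 hx), res_res _ _ _⟩
        rw [coeff_res] at hy
        split_ifs at hy with h
        · exact hg x t y hy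
        · exact absurd rfl hy
      · exact ⟨HomAt.zero _ _, fun h => absurd rfl h, map_zero _⟩
    choose k hk hkq using fun t => span' t n (q t) (hqM t)
    refine ⟨fun x => k x.1 x.2, fun x => hk x.1 x.2, ?_⟩
    have hp2 : p = ∑ t, ph V (q t) * MvPolynomial.C (v t) := by
      ext1 x
      rw [MvPolynomial.coeff_sum]
      by_cases hx : x ∈ p.support
      · rw [hgp x]
        refine Finset.sum_congr rfl fun t _ => ?_
        rw [mul_comm (ph V (q t)), coeff_C_mul, coeff_ph, mul_comm, hcoeff, if_pos hx, aeval_res]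
        intro l hl
        exact hV0 l (by omega)
      · rw [notMem_support_iff.1 hx]
        symm
        refine Finset.sum_eq_zero fun t _ => ?_
        rw [mul_comm (ph V (q t)), coeff_C_mul, coeff_ph, hcoeff, if_neg hx, map_zero, mul_zero]
    rw [hp2, Fintype.sum_sigma]
    refine Finset.sum_congr rfl fun t _ => ?_
    conv_lhs => rw [hkq t]
    rw [map_sum, Finset.sum_mul]
    refine Finset.sum_congr rfl fun u _ => ?_
    rw [map_mul, ph_aeval, mul_assoc]

end closure

end one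

end

end Pool.Agent.T9h74.Gor
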