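import Pool.Agent.T9h74.Gor.Final

/-!
# Segre products: symmetry of the degrees of the basis elements
-/

set_option autoImplicit false

namespace Pool.Agent.T9h74.Gor

open MvPolynomial Finset Pool.Agent.T9h29.NA

noncomputable section

universe u

/-- The Hilbert polynomial of `K[x_0, …, x_e](-d)`, times `e!`. -/
def QP (e d : ℕ) : Polynomial ℚ := ∏ i ∈ range e, (Polynomial.X + Polynomial.C ((i : ℚ) + 1 - d))

lemma eval_QP {e d : ℕ} (hd : d ≤ e) (n : ℕ) :
    (QP e d).eval (n : ℚ) = (e.factorial : ℚ) * cnt e d n := by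
  rw [QP, Polynomial.eval_prod]
  simp only [Polynomial.eval_add, Polynomial.eval_X, Polynomial.eval_C]
  rw [cnt]
  split_ifs with h
  · have h1 := Nat.ascFactorial_eq_factorial_mul_choose (n - d) e
    rw [Nat.ascFactorial_eq_prod_range] at h1
    rw [← Nat.cast_mul, ← h1, Nat.cast_prod]
    refine Finset.prod_congr rfl fun i _ => ?_
    rw [Nat.cast_add, Nat.cast_add, Nat.cast_sub h]
    push_cast
    ring
  · rw [Nat.cast_zero, mul_zero]
    apply Finset.prod_eq_zero (i := d - n - 1)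
    · rw [Finset.mem_range]; omega
    · rw [Nat.cast_sub (by omega), Nat.cast_sub (by omega)]
      push_cast
      ring

lemma eval_QP_neg {e d : ℕ} (hd : d ≤ e) (n : ℕ) :
    (QP e d).eval (-(n : ℚ) - 1) = (-1) ^ e * ((e.factorial : ℚ) * cnt e (e - d) n) := by
  rw [← eval_QP (Nat.sub_le e d), QP, QP, Polynomial.eval_prod, Polynomial.eval_prod]
  simp only [Polynomial.eval_add, Polynomial.eval_X, Polynomial.eval_C]
  rw [← Finset.prod_range_reflect]
  have h1 : ((-1 : ℚ)) ^ e = ∏ _i ∈ range e, (-1 : ℚ) := by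
    rw [Finset.prod_const, Finset.card_range]
  rw [h1, ← Finset.prod_mul_distrib]
  refine Finset.prod_congr rfl fun i hi => ?_
  rw [Finset.mem_range] at hi
  rw [Nat.cast_sub (by omega), Nat.cast_sub (by omega), Nat.cast_sub hd]
  push_cast
  ring

section

variable {B : Type} [Fintype B]

/-- Reciprocity. -/
theorem reciprocity {e s : B → ℕ} (hs : ∀ b, s b ≤ e b) {m : ℕ} {k : Fin m → ℕ}
    (hk : ∀ i, k i ≤ ∑ b, e b) (h : ∀ n, ∏ b, cnt (e b) (s b) n = ∑ i, cnt (∑ b, e b) (k i) n)
    (n : ℕ) : ∏ b, cnt (e b) (e b - s b) n = ∑ i, cnt (∑ b, e b) (∑ b, e b - k i) n := by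
  set D := ∑ b, e b with hD
  have h1 : Polynomial.C (D.factorial : ℚ) * ∏ b, QP (e b) (s b) =
      Polynomial.C (∏ b, ((e b).factorial : ℚ)) * ∑ i, QP D (k i) := by
    refine Polynomial.eq_of_infinite_eval_eq _ _ (Set.Infinite.mono ?_
      (Set.infinite_range_of_injective (Nat.cast_injective (R := ℚ))))
    rintro _ ⟨n, rfl⟩
    show Polynomial.eval _ _ = Polynomial.eval _ _
    rw [Polynomial.eval_mul, Polynomial.eval_mul, Polynomial.eval_C, Polynomial.eval_C,
      Polynomial.eval_prod, Polynomial.eval_finsetSum]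
    rw [Finset.prod_congr rfl fun b _ => eval_QP (hs b) n, Finset.prod_mul_distrib,
      Finset.sum_congr rfl fun i _ => eval_QP (hk i) n, ← Finset.mul_sum]
    have h2 := congrArg (Nat.cast (R := ℚ)) (h n)
    rw [Nat.cast_prod, Nat.cast_sum] at h2
    rw [h2]
    ring
  have h3 := congrArg (Polynomial.eval (-(n : ℚ) - 1)) h1
  rw [Polynomial.eval_mul, Polynomial.eval_mul, Polynomial.eval_C, Polynomial.eval_C,
      Polynomial.eval_prod, Polynomial.eval_finsetSum] at h3
  rw [Finset.prod_congr rfl fun b _ => eval_QP_neg (hs b) n, Finset.prod_mul_distrib,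
      Finset.sum_congr rfl fun i _ => eval_QP_neg (hk i) n, ← Finset.mul_sum, ← Finset.mul_sum,
      Finset.prod_mul_distrib, Finset.prod_pow_eq_pow_sum, ← hD] at h3
  have h4 : ((∏ b, cnt (e b) (e b - s b) n : ℕ) : ℚ) = ((∑ i, cnt D (D - k i) n : ℕ) : ℚ) := by
    rw [Nat.cast_prod, Nat.cast_sum]
    have h5 : ((D.factorial : ℚ) * ((-1) ^ D * ∏ b, ((e b).factorial : ℚ))) ≠ 0 := by
      refine mul_ne_zero (Nat.cast_ne_zero.2 (Nat.factorial_ne_zero _)) (mul_ne_zero ?_ ?_)
      · exact pow_ne_zero _ (by norm_num)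
      · exact Finset.prod_ne_zero_iff.2 fun b _ => Nat.cast_ne_zero.2 (Nat.factorial_ne_zero _)
    apply mul_left_cancel₀ h5
    linear_combination h3
  exact_mod_cast h4

lemma cnt_self (D g : ℕ) : cnt D g g = 1 := by
  rw [cnt, if_pos le_rfl, Nat.sub_self, Nat.zero_add, Nat.choose_self]

lemma sum_cnt {m : ℕ} (k : Fin m → ℕ) (D g : ℕ) :
    ∑ i, cnt D (k i) g = (∑ j ∈ range g, (univ.filter fun i => k i = j).card * cnt D j g)
      + (univ.filter fun i => k i = g).card := by
  have h1 : ∑ i, cnt D (k i) g = ∑ j ∈ range (g + 1), (univ.filter fun i => k i = j).card * cnt D j g := by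
    have h2 : ∀ i, cnt D (k i) g = ∑ j ∈ range (g + 1), if k i = j then cnt D j g else 0 := by
      intro i
      rw [Finset.sum_ite_eq]
      split_ifs with h
      · rfl
      · rw [Finset.mem_range] at h
        rw [cnt, if_neg (by omega)]
    rw [Finset.sum_congr rfl fun i _ => h2 i, Finset.sum_comm]
    refine Finset.sum_congr rfl fun j _ => ?_
    rw [← Finset.sum_filter, Finset.sum_const, smul_eq_mul]
  rw [h1, Finset.sum_range_succ, cnt_self, mul_one]

/-- The Hilbert function determines the degrees. -/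
theorem count_eq {m m' D : ℕ} {k : Fin m → ℕ} {k' : Fin m' → ℕ}
    (h : ∀ n, ∑ i, cnt D (k i) n = ∑ i, cnt D (k' i) n) (g : ℕ) :
    (univ.filter fun i => k i = g).card = (univ.filter fun i => k' i = g).card := by
  induction g using Nat.strong_induction_on with
  | _ g ih =>
  have h1 := h g
  rw [sum_cnt, sum_cnt] at h1
  rw [Finset.sum_congr rfl fun j hj => by rw [ih j (Finset.mem_range.1 hj)]] at h1
  omega

lemma cnt_zero (e s : ℕ) : cnt e s 0 = if s = 0 then 1 else 0 := by
  rw [cnt]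
  by_cases h : s = 0
  · subst h
    simp
  · rw [if_neg (by omega), if_neg h]

/-- `(m, k, p)` is a homogeneous basis for the shifts `s`. -/
structure IsSegreBasis {K : Type u} [Field K] (e s : B → ℕ) {m : ℕ} (k : Fin m → ℕ)
    (p : Fin m → Pg K e) : Prop where
  /-- the elements are homogeneous -/
  mem : ∀ i, p i ∈ restrictSupport K {x : (Σ b, Fin (e b + 1)) →₀ ℕ |
    ∀ b, (∑ j, x ⟨b, j⟩) + s b = k i}
  /-- bound for the degrees -/
  le : ∀ i, k i ≤ ∑ b, e b
  /-- basis elements of degree `0` -/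
  zero : (univ.filter fun i => k i = 0).card = if s = 0 then 1 else 0
  /-- basis elements of maximal degree -/
  top : (univ.filter fun i => k i = ∑ b, e b).card = if s = e then 1 else 0
  /-- unique representation -/
  unique : ∀ f : Pg K e, f ∈ restrictSupport K {x : (Σ b, Fin (e b + 1)) →₀ ℕ |
      ∃ n, ∀ b, (∑ j, x ⟨b, j⟩) + s b = n} →
    ∃! c : Fin m → MvPolynomial (Fin (∑ b, e b + 1)) K,
      f = ∑ i, aeval (fun l : Fin (∑ b, e b + 1) => theta K e (l : ℕ)) (c i) * p i
  /-- homogeneous unique representation: the coefficients are homogeneous -/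
  graded : ∀ n, ∀ f : Pg K e, f ∈ restrictSupport K {x : (Σ b, Fin (e b + 1)) →₀ ℕ |
      ∀ b, (∑ j, x ⟨b, j⟩) + s b = n} →
    ∃ c : Fin m → MvPolynomial (Fin (∑ b, e b + 1)) K,
      (∀ i, c i ∈ restrictSupport K {y | y.degree + k i = n}) ∧
      f = ∑ i, aeval (fun l : Fin (∑ b, e b + 1) => theta K e (l : ℕ)) (c i) * p i
  /-- Hilbert function -/
  hilb : ∀ n, ∏ b, cnt (e b) (s b) n = ∑ i, cnt (∑ b, e b) (k i) n

theorem exists_segreBasis [Nonempty B] (K : Type u) [Field K] (e s : B → ℕ)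
    (hs : ∀ b, s b ≤ e b) :
    ∃ (m : ℕ) (k : Fin m → ℕ) (p : Fin m → Pg K e), IsSegreBasis e s k p := by
  obtain ⟨m, k, p, hk, hp, inj, span⟩ := segre_graded K e s hs
  have hilb := card_eq_sum hp inj span
  refine ⟨m, k, p, hp, hk, ?_, ?_, fun f hf => segre_unique hp inj span f hf,
    fun n f hf => span n f hf, hilb⟩
  · have h := hilb 0
    simp only [cnt_zero] at h
    rw [← Finset.sum_filter, Finset.sum_const, smul_eq_mul, mul_one] at h
    rw [← h]
    by_cases hs0 : s = 0
    · rw [if_pos hs0, hs0]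
      simp
    · rw [if_neg hs0]
      obtain ⟨b, hb⟩ := Function.ne_iff.1 hs0
      exact Finset.prod_eq_zero (Finset.mem_univ b) (if_neg hb)
  · have h := reciprocity hs hk hilb 0
    simp only [cnt_zero] at h
    rw [← Finset.sum_filter, Finset.sum_const, smul_eq_mul, mul_one] at h
    have h2 : (univ.filter fun i => k i = ∑ b, e b) = (univ.filter fun i => ∑ b, e b - k i = 0) := by
      ext i
      simp only [Finset.mem_filter, Finset.mem_univ, true_and]
      have := hk i
      omega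
    rw [h2, ← h]
    by_cases hs0 : s = e
    · rw [if_pos hs0, hs0]
      simp
    · rw [if_neg hs0]
      obtain ⟨b, hb⟩ := Function.ne_iff.1 hs0
      refine Finset.prod_eq_zero (Finset.mem_univ b) (if_neg ?_)
      have := hs b
      omega

/-- **Symmetry**: the degrees for `e - s` are `D -` the degrees for `s`. -/
theorem IsSegreBasis.symm {K : Type u} [Field K] {e s : B → ℕ} (hs : ∀ b, s b ≤ e b)
    {m m' : ℕ} {k : Fin m → ℕ} {p : Fin m → Pg K e} {k' : Fin m' → ℕ} {p' : Fin m' → Pg K e}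
    (h : IsSegreBasis e s k p) (h' : IsSegreBasis e (fun b => e b - s b) k' p') (g : ℕ)
    (hg : g ≤ ∑ b, e b) :
    (univ.filter fun i => k i = g).card = (univ.filter fun i => k' i = ∑ b, e b - g).card := by
  have h1 := count_eq (D := ∑ b, e b) (k := fun i => ∑ b, e b - k i) (k' := k')
    (fun n => by rw [← reciprocity hs h.le h.hilb n, ← h'.hilb n]) (∑ b, e b - g)
  rw [← h1]
  congr 1
  ext i
  simp only [Finset.mem_filter, Finset.mem_univ, true_and]
  have := h.le i
  omega

/-- The statement of the specification. -/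
theorem segre_free [Nonempty B] (K : Type u) [Field K] (e s : B → ℕ) (hs : ∀ b, s b ≤ e b) :
    ∃ (m : ℕ) (k : Fin m → ℕ) (p : Fin m → Pg K e),
      (∀ i, p i ∈ restrictSupport K {x : (Σ b, Fin (e b + 1)) →₀ ℕ |
        ∀ b, (∑ j, x ⟨b, j⟩) + s b = k i}) ∧
      (∀ i, k i ≤ ∑ b, e b) ∧
      (Fintype.card {i // k i = ∑ b, e b} = if s = e then 1 else 0) ∧
      (∀ f : Pg K e, f ∈ restrictSupport K {x : (Σ b, Fin (e b + 1)) →₀ ℕ |
          ∃ n, ∀ b, (∑ j, x ⟨b, j⟩) + s b = n} →
        ∃! c : Fin m → MvPolynomial (Fin (∑ b, e b + 1)) K,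
          f = ∑ i, aeval (fun l : Fin (∑ b, e b + 1) => theta K e (l : ℕ)) (c i) * p i) := by
  obtain ⟨m, k, p, h⟩ := exists_segreBasis K e s hs
  refine ⟨m, k, p, h.mem, h.le, ?_, h.unique⟩
  rw [← h.top, Fintype.card_subtype]

/-- A choice of bases for all the shifts at once. -/
theorem exists_family [Nonempty B] (K : Type u) [Field K] (e : B → ℕ) :
    ∃ (m : (B → ℕ) → ℕ) (k : ∀ s, Fin (m s) → ℕ) (p : ∀ s, Fin (m s) → Pg K e),
      (∀ s, (∀ b, s b ≤ e b) → IsSegreBasis e s (k s) (p s)) ∧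
      ∀ s, (∀ b, s b ≤ e b) → ∀ g ≤ ∑ b, e b, (univ.filter fun i => k s i = g).card =
        (univ.filter fun i => k (fun b => e b - s b) i = ∑ b, e b - g).card := by
  have h1 : ∀ s : B → ℕ, ∃ (m : ℕ) (k : Fin m → ℕ) (p : Fin m → Pg K e),
      (∀ b, s b ≤ e b) → IsSegreBasis e s k p := by
    intro s
    by_cases hs : ∀ b, s b ≤ e b
    · obtain ⟨m, k, p, h⟩ := exists_segreBasis K e s hs
      exact ⟨m, k, p, fun _ => h⟩
    · exact ⟨0, fun _ => 0, fun _ => 0, fun h => absurd h hs⟩
  choose m k p h using h1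
  exact ⟨m, k, p, h, fun s hs g hg => (h s hs).symm hs
    (h (fun b => e b - s b) fun b => Nat.sub_le _ _) g hg⟩

end

end

end Pool.Agent.T9h74.Gor
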