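import Mathlib

/-!
# Segre products of two polynomial rings: freeness over the diagonal parameters

`N = K[U_j, V_j]`. For `b ≤ e`, `b' ≤ f` let `θ_l = ∑_{i+j=l} U_i V_j` (`b ≤ i ≤ e`, `b' ≤ j ≤ f`), and let
`M_n` be the space of the polynomials in these variables of degree `n - s` in the `U` and of degree
`n - s'` in the `V`. If `c ≤ s ≤ c + (e-b)`, `c ≤ s' ≤ c + (f-b')` for some `c`, then `⨁ M_n` is free over
`K[θ_{b+b'}, …, θ_{e+f}]`, with a basis of monomials of degrees in `[c, c + (e-b) + (f-b')]`.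
-/

set_option autoImplicit false

namespace Pool.Agent.T9h74.Gor

open MvPolynomial Finset

noncomputable section

variable {K : Type*} [CommRing K]

/-- Degree in the variables `U`. -/
def dU : (ℕ ⊕ ℕ →₀ ℕ) →+ ℕ :=
  Finsupp.liftAddHom fun v => Sum.elim (fun _ => AddMonoidHom.id ℕ) (fun _ => 0) v

/-- Degree in the variables `V`. -/
def dV : (ℕ ⊕ ℕ →₀ ℕ) →+ ℕ :=
  Finsupp.liftAddHom fun v => Sum.elim (fun _ => 0) (fun _ => AddMonoidHom.id ℕ) v

@[simp] lemma dU_single_inl (j k : ℕ) : dU (Finsupp.single (Sum.inl j) k) = k := by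
  rw [dU, Finsupp.liftAddHom_apply_single]; rfl
@[simp] lemma dU_single_inr (j k : ℕ) : dU (Finsupp.single (Sum.inr j) k) = 0 := by
  rw [dU, Finsupp.liftAddHom_apply_single]; rfl
@[simp] lemma dV_single_inl (j k : ℕ) : dV (Finsupp.single (Sum.inl j) k) = 0 := by
  rw [dV, Finsupp.liftAddHom_apply_single]; rfl
@[simp] lemma dV_single_inr (j k : ℕ) : dV (Finsupp.single (Sum.inr j) k) = k := by
  rw [dV, Finsupp.liftAddHom_apply_single]; rfl

/-- The exponents of the monomials of `M_n`. -/
def Mon (e f b b' s s' n : ℕ) : Set (ℕ ⊕ ℕ →₀ ℕ) :=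
  {x | (∀ j, x (Sum.inl j) ≠ 0 → b ≤ j ∧ j ≤ e) ∧ (∀ j, x (Sum.inr j) ≠ 0 → b' ≤ j ∧ j ≤ f) ∧
    dU x + s = n ∧ dV x + s' = n}

/-- The space `M_n`. -/
def M (K : Type*) [CommRing K] (e f b b' s s' n : ℕ) : Submodule K (MvPolynomial (ℕ ⊕ ℕ) K) :=
  restrictSupport K (Mon e f b b' s s' n)

/-- The parameters. -/
def th (K : Type*) [CommRing K] (e f b b' l : ℕ) : MvPolynomial (ℕ ⊕ ℕ) K :=
  ∑ i ∈ Icc b e, ∑ j ∈ Icc b' f, if i + j = l then X (Sum.inl i) * X (Sum.inr j) else 0

lemma mem_M {e f b b' s s' n : ℕ} {p : MvPolynomial (ℕ ⊕ ℕ) K} :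
    p ∈ M K e f b b' s s' n ↔ ∀ x, coeff x p ≠ 0 → x ∈ Mon e f b b' s s' n := by
  rw [M, mem_restrictSupport_iff]
  constructor
  · intro h x hx
    exact h (by simpa [mem_support_iff] using hx)
  · intro h x hx
    exact h x (by simpa [mem_support_iff] using hx)

/-! ### Setting a variable equal to zero -/

section kill

variable {σ : Type*} [DecidableEq σ]

/-- Set the variable `v` equal to zero. -/
def kill (K : Type*) [CommRing K] (v : σ) : MvPolynomial σ K →ₐ[K] MvPolynomial σ K :=
  aeval fun w => if w = v then 0 else X w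

lemma kill_monomial (v : σ) (x : σ →₀ ℕ) (a : K) :
    kill K v (monomial x a) = if x v = 0 then monomial x a else 0 := by
  rw [kill, aeval_monomial, algebraMap_eq]
  split_ifs with h
  · rw [monomial_eq (s := x)]
    congr 1
    refine Finsupp.prod_congr fun w hw => ?_
    rw [if_neg]
    rintro rfl
    exact (Finsupp.mem_support_iff.1 hw) h
  · have : (x.prod fun w k => (if w = v then (0 : MvPolynomial σ K) else X w) ^ k) = 0 := by
      rw [Finsupp.prod]
      apply Finset.prod_eq_zero (Finsupp.mem_support_iff.2 h)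
      rw [if_pos rfl, zero_pow h]
    rw [this, mul_zero]

lemma coeff_kill (v : σ) (p : MvPolynomial σ K) (x : σ →₀ ℕ) :
    coeff x (kill K v p) = if x v = 0 then coeff x p else 0 := by
  induction p using MvPolynomial.induction_on' with
  | monomial y a =>
    rw [kill_monomial]
    by_cases hxy : y = x
    · subst hxy
      split_ifs <;> simp
    · rw [coeff_monomial, if_neg hxy]
      split_ifs <;> simp [coeff_monomial, hxy]
  | add p q hp hq =>
    rw [map_add, coeff_add, hp, hq, coeff_add]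
    split_ifs <;> simp

lemma kill_add_div (v : σ) (p : MvPolynomial σ K) :
    X v * p.divMonomial (Finsupp.single v 1) + kill K v p = p := by
  have h1 : kill K v p = p.modMonomial (Finsupp.single v 1) := by
    ext x
    rw [coeff_kill]
    split_ifs with h
    · rw [coeff_modMonomial_of_not_le]
      intro hle
      have := hle v
      rw [Finsupp.single_eq_same, h] at this
      omega
    · rw [coeff_modMonomial_of_le]
      rw [Finsupp.single_le_iff]
      omega
  rw [h1, divMonomial_add_modMonomial_single]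

omit [DecidableEq σ] in
lemma X_mul_cancel {v : σ} {p : MvPolynomial σ K} (h : X v * p = 0) : p = 0 := by
  rw [← X_mul_divMonomial v p, h, zero_divMonomial]

omit [DecidableEq σ] in
/-- An element divisible by all powers of a variable vanishes. -/
lemma eq_zero_of_dvd_pow {v : σ} {p : MvPolynomial σ K} (h : ∀ m : ℕ, ∃ q, p = X v ^ m * q) :
    p = 0 := by
  ext x
  rw [coeff_zero]
  obtain ⟨q, hq⟩ := h (x v + 1)
  rw [hq, X_pow_eq_monomial, coeff_monomial_mul', if_neg]
  rw [Finsupp.single_le_iff]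
  omega

end kill

/-- Keep the variables with index in `[lo, hi]`, and set the others equal to zero. -/
def res (K : Type*) [CommRing K] (lo hi : ℕ) : MvPolynomial ℕ K →ₐ[K] MvPolynomial ℕ K :=
  aeval fun l => if lo ≤ l ∧ l ≤ hi then X l else 0

lemma res_res (lo hi : ℕ) (g : MvPolynomial ℕ K) : res K lo hi (res K lo hi g) = res K lo hi g := by
  have : (res K lo hi).comp (res K lo hi) = res K lo hi := by
    apply algHom_ext
    intro l
    simp only [res, AlgHom.comp_apply, aeval_X]
    split_ifs with h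
    · rw [aeval_X, if_pos h]
    · simp
  exact DFunLike.congr_fun this g

lemma kill_res (lo hi : ℕ) (g : MvPolynomial ℕ K) :
    kill K lo (res K lo hi g) = res K (lo + 1) hi g := by
  have : (kill K lo).comp (res K lo hi) = res K (lo + 1) hi := by
    apply algHom_ext
    intro l
    simp only [res, AlgHom.comp_apply, aeval_X, kill]
    by_cases h : lo ≤ l ∧ l ≤ hi
    · rw [if_pos h, aeval_X]
      by_cases h' : l = lo
      · rw [if_pos h', if_neg (by omega)]
      · rw [if_neg h', if_pos (by omega)]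
    · rw [if_neg h, if_neg (by omega), map_zero]
  exact DFunLike.congr_fun this g

lemma aeval_res {A : Type*} [CommRing A] [Algebra K A] {lo hi : ℕ} {t : ℕ → A}
    (ht : ∀ l, ¬ (lo ≤ l ∧ l ≤ hi) → t l = 0) (g : MvPolynomial ℕ K) :
    aeval t (res K lo hi g) = aeval t g := by
  have : (aeval t).comp (res K lo hi) = (aeval t : MvPolynomial ℕ K →ₐ[K] A) := by
    apply algHom_ext
    intro l
    simp only [res, AlgHom.comp_apply, aeval_X]
    split_ifs with h
    · rw [aeval_X]
    · rw [map_zero, ht l h]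
  exact DFunLike.congr_fun this g

/-! ### The parameters -/

section th

variable {e f b b' : ℕ}

lemma th_eq_zero {l : ℕ} (h : ¬ (b + b' ≤ l ∧ l ≤ e + f)) : th K e f b b' l = 0 := by
  rw [th]
  refine Finset.sum_eq_zero fun i hi => Finset.sum_eq_zero fun j hj => ?_
  rw [Finset.mem_Icc] at hi hj
  rw [if_neg (by omega)]

lemma th_bot (hb : b ≤ e) (hb' : b' ≤ f) : th K e f b b' (b + b') = X (Sum.inl b) * X (Sum.inr b') := by
  rw [th, Finset.sum_eq_single_of_mem b (Finset.mem_Icc.2 ⟨le_rfl, hb⟩),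
    Finset.sum_eq_single_of_mem b' (Finset.mem_Icc.2 ⟨le_rfl, hb'⟩)]
  · rw [if_pos rfl]
  · intro j hj hne
    rw [Finset.mem_Icc] at hj
    rw [if_neg (by omega)]
  · intro i hi hne
    refine Finset.sum_eq_zero fun j hj => ?_
    rw [Finset.mem_Icc] at hi hj
    rw [if_neg (by omega)]

lemma kill_inl_th (l : ℕ) : kill K (Sum.inl b) (th K e f b b' l) = th K e f (b + 1) b' l := by
  rw [th, th, map_sum]
  rw [← Finset.sum_subset (s₁ := Icc (b + 1) e) (s₂ := Icc b e)]
  · refine Finset.sum_congr rfl fun i hi => ?_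
    rw [map_sum]
    refine Finset.sum_congr rfl fun j _ => ?_
    rw [Finset.mem_Icc] at hi
    split_ifs with h
    · simp only [kill, map_mul, aeval_X, Sum.inl.injEq, reduceCtorEq, if_false]
      rw [if_neg (by omega)]
    · rw [map_zero]
  · intro i hi
    rw [Finset.mem_Icc] at *
    omega
  · intro i hi hi'
    rw [Finset.mem_Icc] at *
    have : i = b := by omega
    subst this
    rw [map_sum]
    refine Finset.sum_eq_zero fun j _ => ?_
    split_ifs with h
    · simp [kill]
    · rw [map_zero]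

lemma kill_inr_th (l : ℕ) : kill K (Sum.inr b') (th K e f b b' l) = th K e f b (b' + 1) l := by
  rw [th, th, map_sum]
  refine Finset.sum_congr rfl fun i _ => ?_
  rw [map_sum, ← Finset.sum_subset (s₁ := Icc (b' + 1) f) (s₂ := Icc b' f)]
  · refine Finset.sum_congr rfl fun j hj => ?_
    rw [Finset.mem_Icc] at hj
    split_ifs with h
    · simp only [kill, map_mul, aeval_X, Sum.inr.injEq, reduceCtorEq, if_false]
      rw [if_neg (by omega)]
    · rw [map_zero]
  · intro j hj
    rw [Finset.mem_Icc] at *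
    omega
  · intro j hj hj'
    rw [Finset.mem_Icc] at *
    have : j = b' := by omega
    subst this
    split_ifs with h
    · simp [kill]
    · rw [map_zero]

lemma kill_inl_aeval_th (g : MvPolynomial ℕ K) :
    kill K (Sum.inl b) (aeval (th K e f b b') g) = aeval (th K e f (b + 1) b') g := by
  have : (kill K (Sum.inl b)).comp (aeval (th K e f b b')) = aeval (th K e f (b + 1) b') := by
    apply algHom_ext
    intro l
    rw [AlgHom.comp_apply, aeval_X, aeval_X, kill_inl_th]
  exact DFunLike.congr_fun this g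

lemma kill_inr_aeval_th (g : MvPolynomial ℕ K) :
    kill K (Sum.inr b') (aeval (th K e f b b') g) = aeval (th K e f b (b' + 1)) g := by
  have : (kill K (Sum.inr b')).comp (aeval (th K e f b b')) = aeval (th K e f b (b' + 1)) := by
    apply algHom_ext
    intro l
    rw [AlgHom.comp_apply, aeval_X, aeval_X, kill_inr_th]
  exact DFunLike.congr_fun this g

end th

/-! ### The spaces `M_n` -/

section spaces

variable {e f b b' s s' n : ℕ}

lemma kill_inl_mem {p : MvPolynomial (ℕ ⊕ ℕ) K} (hp : p ∈ M K e f b b' s s' n) :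
    kill K (Sum.inl b) p ∈ M K e f (b + 1) b' s s' n := by
  rw [mem_M] at hp ⊢
  intro x hx
  rw [coeff_kill] at hx
  split_ifs at hx with h
  · obtain ⟨h1, h2, h3, h4⟩ := hp x hx
    refine ⟨fun j hj => ?_, h2, h3, h4⟩
    have := h1 j hj
    have hne : j ≠ b := by rintro rfl; exact hj h
    omega
  · exact absurd rfl hx

lemma kill_inr_mem {p : MvPolynomial (ℕ ⊕ ℕ) K} (hp : p ∈ M K e f b b' s s' n) :
    kill K (Sum.inr b') p ∈ M K e f b (b' + 1) s s' n := by
  rw [mem_M] at hp ⊢
  intro x hx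
  rw [coeff_kill] at hx
  split_ifs at hx with h
  · obtain ⟨h1, h2, h3, h4⟩ := hp x hx
    refine ⟨h1, fun j hj => ?_, h3, h4⟩
    have := h2 j hj
    have hne : j ≠ b' := by rintro rfl; exact hj h
    omega
  · exact absurd rfl hx

lemma div_inl_mem {i : ℕ} {p : MvPolynomial (ℕ ⊕ ℕ) K} (hp : p ∈ M K e f b b' s s' n) :
    p.divMonomial (Finsupp.single (Sum.inl i) 1) ∈ M K e f b b' (s + 1) s' n := by
  rw [mem_M] at hp ⊢
  intro x hx
  rw [coeff_divMonomial] at hx
  obtain ⟨h1, h2, h3, h4⟩ := hp _ hx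
  rw [map_add, dU_single_inl] at h3
  rw [map_add, dV_single_inl] at h4
  refine ⟨fun j hj => h1 j ?_, fun j hj => h2 j ?_, by omega, by omega⟩
  · rw [Finsupp.add_apply]; omega
  · rw [Finsupp.add_apply]; omega

lemma div_inr_mem {i : ℕ} {p : MvPolynomial (ℕ ⊕ ℕ) K} (hp : p ∈ M K e f b b' s s' n) :
    p.divMonomial (Finsupp.single (Sum.inr i) 1) ∈ M K e f b b' s (s' + 1) n := by
  rw [mem_M] at hp ⊢
  intro x hx
  rw [coeff_divMonomial] at hx
  obtain ⟨h1, h2, h3, h4⟩ := hp _ hx
  rw [map_add, dU_single_inr] at h3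
  rw [map_add, dV_single_inr] at h4
  refine ⟨fun j hj => h1 j ?_, fun j hj => h2 j ?_, by omega, by omega⟩
  · rw [Finsupp.add_apply]; omega
  · rw [Finsupp.add_apply]; omega

lemma X_inl_mul_mem {i : ℕ} (hi : b ≤ i) (hi' : i ≤ e) {p : MvPolynomial (ℕ ⊕ ℕ) K}
    (hp : p ∈ M K e f b b' (s + 1) s' n) : X (Sum.inl i) * p ∈ M K e f b b' s s' n := by
  classical
  rw [mem_M] at hp ⊢
  intro x hx
  rw [coeff_X_mul'] at hx
  split_ifs at hx with h
  · obtain ⟨h1, h2, h3, h4⟩ := hp _ hx
    have hle : Finsupp.single (Sum.inl i) 1 ≤ x := by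
      rw [Finsupp.single_le_iff]
      have := Finsupp.mem_support_iff.1 h
      omega
    have hx' : x = (x - Finsupp.single (Sum.inl i) 1) + Finsupp.single (Sum.inl i) 1 :=
      (tsub_add_cancel_of_le hle).symm
    have e1 : dU x = dU (x - Finsupp.single (Sum.inl i) 1) + 1 := by
      conv_lhs => rw [hx']
      rw [map_add, dU_single_inl]
    have e2 : dV x = dV (x - Finsupp.single (Sum.inl i) 1) := by
      conv_lhs => rw [hx']
      rw [map_add, dV_single_inl, add_zero]
    refine ⟨fun j hj => ?_, fun j hj => h2 j ?_, by omega, by omega⟩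
    · by_cases hji : j = i
      · subst hji; exact ⟨hi, hi'⟩
      · apply h1 j
        rw [Finsupp.tsub_apply, Finsupp.single_apply, if_neg (by simpa using Ne.symm hji)]
        exact hj
    · rw [Finsupp.tsub_apply, Finsupp.single_apply, if_neg (by simp)]
      exact hj
  · exact absurd rfl hx

lemma X_inr_mul_mem {i : ℕ} (hi : b' ≤ i) (hi' : i ≤ f) {p : MvPolynomial (ℕ ⊕ ℕ) K}
    (hp : p ∈ M K e f b b' s (s' + 1) n) : X (Sum.inr i) * p ∈ M K e f b b' s s' n := by
  classical
  rw [mem_M] at hp ⊢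
  intro x hx
  rw [coeff_X_mul'] at hx
  split_ifs at hx with h
  · obtain ⟨h1, h2, h3, h4⟩ := hp _ hx
    have hle : Finsupp.single (Sum.inr i) 1 ≤ x := by
      rw [Finsupp.single_le_iff]
      have := Finsupp.mem_support_iff.1 h
      omega
    have hx' : x = (x - Finsupp.single (Sum.inr i) 1) + Finsupp.single (Sum.inr i) 1 :=
      (tsub_add_cancel_of_le hle).symm
    have e1 : dV x = dV (x - Finsupp.single (Sum.inr i) 1) + 1 := by
      conv_lhs => rw [hx']
      rw [map_add, dV_single_inr]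
    have e2 : dU x = dU (x - Finsupp.single (Sum.inr i) 1) := by
      conv_lhs => rw [hx']
      rw [map_add, dU_single_inr, add_zero]
    refine ⟨fun j hj => h1 j ?_, fun j hj => ?_, by omega, by omega⟩
    · rw [Finsupp.tsub_apply, Finsupp.single_apply, if_neg (by simp)]
      exact hj
    · by_cases hji : j = i
      · subst hji; exact ⟨hi, hi'⟩
      · apply h2 j
        rw [Finsupp.tsub_apply, Finsupp.single_apply, if_neg (by simpa using Ne.symm hji)]
        exact hj
  · exact absurd rfl hx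

lemma M_shift : M K e f b b' (s + 1) (s' + 1) (n + 1) = M K e f b b' s s' n := by
  ext p
  rw [mem_M, mem_M]
  simp only [Mon, Set.mem_ofPred_eq]
  constructor
  · intro h x hx
    obtain ⟨h1, h2, h3, h4⟩ := h x hx
    exact ⟨h1, h2, by omega, by omega⟩
  · intro h x hx
    obtain ⟨h1, h2, h3, h4⟩ := h x hx
    exact ⟨h1, h2, by omega, by omega⟩

lemma M_zero {p : MvPolynomial (ℕ ⊕ ℕ) K} (hp : p ∈ M K e f b b' (s + 1) s' 0) : p = 0 := by
  ext x
  rw [coeff_zero]
  by_contra h
  obtain ⟨_, _, h3, _⟩ := (mem_M.1 hp) x h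
  omega

lemma M_mono_inl {p : MvPolynomial (ℕ ⊕ ℕ) K} (hp : p ∈ M K e f (b + 1) b' s s' n) :
    p ∈ M K e f b b' s s' n := by
  rw [mem_M] at hp ⊢
  intro x hx
  obtain ⟨h1, h2, h3, h4⟩ := hp x hx
  exact ⟨fun j hj => by have := h1 j hj; omega, h2, h3, h4⟩

lemma M_mono_inr {p : MvPolynomial (ℕ ⊕ ℕ) K} (hp : p ∈ M K e f b (b' + 1) s s' n) :
    p ∈ M K e f b b' s s' n := by
  rw [mem_M] at hp ⊢
  intro x hx
  obtain ⟨h1, h2, h3, h4⟩ := hp x hx
  exact ⟨h1, fun j hj => by have := h2 j hj; omega, h3, h4⟩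

lemma kill_inl_eq {p : MvPolynomial (ℕ ⊕ ℕ) K} (hp : p ∈ M K e f (b + 1) b' s s' n) :
    kill K (Sum.inl b) p = p := by
  ext x
  rw [coeff_kill]
  split_ifs with h
  · rfl
  · by_contra hne
    obtain ⟨h1, _⟩ := (mem_M.1 hp) x (Ne.symm hne)
    have := h1 b h
    omega

lemma kill_inr_eq {p : MvPolynomial (ℕ ⊕ ℕ) K} (hp : p ∈ M K e f b (b' + 1) s s' n) :
    kill K (Sum.inr b') p = p := by
  ext x
  rw [coeff_kill]
  split_ifs with h
  · rfl
  · by_contra hne
    obtain ⟨_, h1, _⟩ := (mem_M.1 hp) x (Ne.symm hne)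
    have := h1 b' h
    omega

lemma th_mul_mem (l : ℕ) {p : MvPolynomial (ℕ ⊕ ℕ) K} (hp : p ∈ M K e f b b' s s' n) :
    th K e f b b' l * p ∈ M K e f b b' s s' (n + 1) := by
  rw [th, Finset.sum_mul]
  refine Submodule.sum_mem _ fun i hi => ?_
  rw [Finset.sum_mul]
  refine Submodule.sum_mem _ fun j hj => ?_
  rw [Finset.mem_Icc] at hi hj
  split_ifs with h
  · rw [mul_assoc]
    apply X_inl_mul_mem hi.1 hi.2
    apply X_inr_mul_mem hj.1 hj.2
    rw [M_shift]
    exact hp
  · rw [zero_mul]
    exact Submodule.zero_mem _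

end spaces

/-- All monomials of `g` have degree `k` with `k + d = n`. -/
def HomAt (g : MvPolynomial ℕ K) (d n : ℕ) : Prop := ∀ x, coeff x g ≠ 0 → x.degree + d = n

lemma exists_single_add {x : ℕ →₀ ℕ} {m : ℕ} (hx : x.degree = m + 1) :
    ∃ l y, x = y + Finsupp.single l 1 ∧ y.degree = m := by
  have h0 : x ≠ 0 := by
    rintro rfl
    simp at hx
  obtain ⟨l, hl⟩ := Finsupp.ne_iff.1 h0
  have hle : Finsupp.single l 1 ≤ x := by
    rw [Finsupp.single_le_iff]
    rw [Finsupp.zero_apply] at hl
    omega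
  refine ⟨l, x - Finsupp.single l 1, (tsub_add_cancel_of_le hle).symm, ?_⟩
  have h1 : x.degree = (x - Finsupp.single l 1).degree + 1 := by
    conv_lhs => rw [← tsub_add_cancel_of_le hle]
    rw [map_add, Finsupp.degree_single]
  omega

lemma aeval_monomial_mem {e f b b' s s' d : ℕ} {p : MvPolynomial (ℕ ⊕ ℕ) K}
    (hp : p ∈ M K e f b b' s s' d) (m : ℕ) : ∀ (x : ℕ →₀ ℕ) (a : K), x.degree = m →
    aeval (th K e f b b') (monomial x a) * p ∈ M K e f b b' s s' (m + d) := by
  induction m with
  | zero =>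
    intro x a hx
    have h0 : x = 0 := (Finsupp.degree_eq_zero_iff x).1 hx
    subst h0
    rw [aeval_monomial, Finsupp.prod_zero_index, mul_one, ← Algebra.smul_def, zero_add]
    exact Submodule.smul_mem _ _ hp
  | succ m ih =>
    intro x a hx
    obtain ⟨l, y, rfl, hy⟩ := exists_single_add hx
    rw [show (monomial (y + Finsupp.single l 1) a : MvPolynomial ℕ K) = X l * monomial y a by
      rw [X, monomial_mul, one_mul, add_comm], map_mul, aeval_X, mul_assoc]
    rw [show m + 1 + d = m + d + 1 by ring]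
    exact th_mul_mem l (ih y a hy)

lemma aeval_mem {e f b b' s s' d n : ℕ} {p : MvPolynomial (ℕ ⊕ ℕ) K}
    (hp : p ∈ M K e f b b' s s' d) {g : MvPolynomial ℕ K} (hg : HomAt g d n) :
    aeval (th K e f b b') g * p ∈ M K e f b b' s s' n := by
  rw [g.as_sum, map_sum, Finset.sum_mul]
  refine Submodule.sum_mem _ fun x hx => ?_
  have h1 := hg x (mem_support_iff.1 hx)
  rw [← h1]
  exact aeval_monomial_mem hp _ x _ rfl

lemma HomAt.zero (d n : ℕ) : HomAt (0 : MvPolynomial ℕ K) d n := fun x hx => absurd (coeff_zero x) hx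

lemma HomAt.add {g h : MvPolynomial ℕ K} {d n : ℕ} (hg : HomAt g d n) (hh : HomAt h d n) :
    HomAt (g + h) d n := by
  intro x hx
  rw [coeff_add] at hx
  by_cases h1 : coeff x g = 0
  · rw [h1, zero_add] at hx
    exact hh x hx
  · exact hg x h1

lemma HomAt.smul {g : MvPolynomial ℕ K} {d n : ℕ} (a : K) (hg : HomAt g d n) :
    HomAt (a • g) d n := by
  intro x hx
  rw [coeff_smul] at hx
  exact hg x fun h => hx (by rw [h, smul_zero])

lemma HomAt.X_mul {g : MvPolynomial ℕ K} {d n : ℕ} (l : ℕ) (hg : HomAt g d n) :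
    HomAt (X l * g) d (n + 1) := by
  classical
  intro x hx
  rw [coeff_X_mul'] at hx
  split_ifs at hx with h
  · have h1 := hg _ hx
    have hle : Finsupp.single l 1 ≤ x := by
      rw [Finsupp.single_le_iff]
      have := Finsupp.mem_support_iff.1 h
      omega
    have h2 : x.degree = (x - Finsupp.single l 1).degree + 1 := by
      conv_lhs => rw [← tsub_add_cancel_of_le hle]
      rw [map_add, Finsupp.degree_single]
    omega
  · exact absurd rfl hx

/-! ### Freeness -/

section data

variable {T : Type} [Fintype T]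

/-- The submodule of the combinations of the `β t` of degree `n`. -/
def W (e f b b' : ℕ) (d : T → ℕ) (β : T → MvPolynomial (ℕ ⊕ ℕ) K) (n : ℕ) :
    Submodule K (MvPolynomial (ℕ ⊕ ℕ) K) where
  carrier := {p | ∃ g : T → MvPolynomial ℕ K, (∀ t, HomAt (g t) (d t) n) ∧
    p = ∑ t, aeval (th K e f b b') (g t) * β t}
  add_mem' := by
    rintro p q ⟨g, hg, rfl⟩ ⟨h, hh, rfl⟩
    refine ⟨fun t => g t + h t, fun t => (hg t).add (hh t), ?_⟩
    rw [← Finset.sum_add_distrib]
    refine Finset.sum_congr rfl fun t _ => ?_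
    rw [map_add, add_mul]
  zero_mem' := ⟨fun _ => 0, fun t => HomAt.zero _ _, by simp⟩
  smul_mem' := by
    rintro a p ⟨g, hg, rfl⟩
    refine ⟨fun t => a • g t, fun t => (hg t).smul a, ?_⟩
    rw [Finset.smul_sum]
    refine Finset.sum_congr rfl fun t _ => ?_
    rw [map_smul, smul_mul_assoc]

lemma mem_W {e f b b' : ℕ} {d : T → ℕ} {β : T → MvPolynomial (ℕ ⊕ ℕ) K} {n : ℕ}
    {p : MvPolynomial (ℕ ⊕ ℕ) K} :
    p ∈ W e f b b' d β n ↔ ∃ g : T → MvPolynomial ℕ K, (∀ t, HomAt (g t) (d t) n) ∧
      p = ∑ t, aeval (th K e f b b') (g t) * β t := Iff.rfl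

lemma th_mul_W {e f b b' : ℕ} {d : T → ℕ} {β : T → MvPolynomial (ℕ ⊕ ℕ) K} {n : ℕ} (l : ℕ)
    {p : MvPolynomial (ℕ ⊕ ℕ) K} (hp : p ∈ W e f b b' d β n) :
    th K e f b b' l * p ∈ W e f b b' d β (n + 1) := by
  obtain ⟨g, hg, rfl⟩ := hp
  refine ⟨fun t => X l * g t, fun t => (hg t).X_mul l, ?_⟩
  rw [Finset.mul_sum]
  refine Finset.sum_congr rfl fun t _ => ?_
  rw [map_mul, aeval_X, mul_assoc]

end data

/-- The graded module `⨁ M_n` has a basis over the polynomials in the parameters. -/
def Free (K : Type*) [CommRing K] (e f b b' s s' c : ℕ) : Prop :=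
  ∃ (T : Type) (_ : Fintype T) (d : T → ℕ) (β : T → MvPolynomial (ℕ ⊕ ℕ) K),
    (∀ t, c ≤ d t ∧ d t ≤ c + (e - b) + (f - b')) ∧
    (∀ t, β t ∈ M K e f b b' s s' (d t)) ∧
    (∀ g : T → MvPolynomial ℕ K, ∑ t, aeval (th K e f b b') (g t) * β t = 0 →
      ∀ t, res K (b + b') (e + f) (g t) = 0) ∧
    ∀ n p, p ∈ M K e f b b' s s' n → p ∈ W e f b b' d β n

/-! ### The inductive step -/

section step

variable {e f b b' s s' c : ℕ}

lemma X_pair_mem_W {T : Type} [Fintype T] {d : T → ℕ} {β : T → MvPolynomial (ℕ ⊕ ℕ) K}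
    (hb : b ≤ e) (hb' : b' ≤ f) {n : ℕ}
    (ih : ∀ m < n, ∀ p, p ∈ M K e f b b' s s' m → p ∈ W e f b b' d β m)
    {q : MvPolynomial (ℕ ⊕ ℕ) K} (hq : q ∈ M K e f b b' (s + 1) (s' + 1) n) :
    X (Sum.inl b) * (X (Sum.inr b') * q) ∈ W e f b b' d β n := by
  cases n with
  | zero =>
    rw [M_zero hq, mul_zero, mul_zero]
    exact Submodule.zero_mem _
  | succ n =>
    rw [M_shift] at hq
    rw [← mul_assoc, ← th_bot hb hb']
    exact th_mul_W _ (ih n (Nat.lt_succ_self n) q hq)

theorem Free.step (hb : b < e) (hb' : b' < f) {c₁ c₂ : ℕ} (hc₁ : c ≤ c₁) (hc₁' : c₁ ≤ c + 1)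
    (hc₂ : c ≤ c₂) (hc₂' : c₂ ≤ c + 1)
    (h₂ : Free K e f (b + 1) b' s s' c₂) (h₁ : Free K e f b (b' + 1) (s + 1) s' c₁) :
    Free K e f b b' s s' c := by
  classical
  obtain ⟨T₂, hT₂, d₂, β₂, hd₂, hβ₂, inj₂, span₂⟩ := h₂
  obtain ⟨T₁, hT₁, d₁, β₁, hd₁, hβ₁, inj₁, span₁⟩ := h₁
  have hlo : b + 1 + b' = (b + b') + 1 := by ring
  have hlo' : b + (b' + 1) = (b + b') + 1 := by ring
  set d : T₂ ⊕ T₁ → ℕ := Sum.elim d₂ d₁ with hd
  set β : T₂ ⊕ T₁ → MvPolynomial (ℕ ⊕ ℕ) K := Sum.elim β₂ fun t => X (Sum.inl b) * β₁ t with hβ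
  -- multiples of one element of the family
  have hinl : ∀ (g : T₂ → MvPolynomial ℕ K) (n : ℕ), (∀ t, HomAt (g t) (d₂ t) n) →
      ∑ t, aeval (th K e f b b') (g t) * β₂ t ∈ W e f b b' d β n := by
    intro g n hg
    refine ⟨Sum.elim g fun _ => 0, ?_, ?_⟩
    · rintro (t | t)
      · exact hg t
      · exact HomAt.zero _ _
    · rw [Fintype.sum_sum_type]
      simp [hβ]
  have hinr : ∀ (g : T₁ → MvPolynomial ℕ K) (n : ℕ), (∀ t, HomAt (g t) (d₁ t) n) →
      X (Sum.inl b) * ∑ t, aeval (th K e f b b') (g t) * β₁ t ∈ W e f b b' d β n := by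
    intro g n hg
    refine ⟨Sum.elim (fun _ => 0) g, ?_, ?_⟩
    · rintro (t | t)
      · exact HomAt.zero _ _
      · exact hg t
    · rw [Fintype.sum_sum_type, Finset.mul_sum]
      simp only [hβ, Sum.elim_inl, Sum.elim_inr, map_zero, zero_mul, Finset.sum_const_zero, zero_add]
      refine Finset.sum_congr rfl fun t _ => ?_
      ring
  refine ⟨T₂ ⊕ T₁, inferInstance, d, β, ?_, ?_, ?_, ?_⟩
  · rintro (t | t)
    · have := hd₂ t
      simp only [hd, Sum.elim_inl]
      omega
    · have := hd₁ t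
      simp only [hd, Sum.elim_inr]
      omega
  · rintro (t | t)
    · exact M_mono_inl (hβ₂ t)
    · exact X_inl_mul_mem le_rfl hb.le (M_mono_inr (hβ₁ t))
  · -- independence
    -- one division by the first parameter
    have key : ∀ g : T₂ ⊕ T₁ → MvPolynomial ℕ K, ∑ t, aeval (th K e f b b') (g t) * β t = 0 →
        ∃ h : T₂ ⊕ T₁ → MvPolynomial ℕ K, (∀ t, res K (b + b') (e + f) (g t) = X (b + b') * h t) ∧
          ∑ t, aeval (th K e f b b') (h t) * β t = 0 := by
      intro g hg
      -- first the elements of T₂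
      have r2 : ∀ t, kill K (b + b') (res K (b + b') (e + f) (g (Sum.inl t))) = 0 := by
        intro t
        rw [kill_res, ← hlo]
        refine inj₂ (fun t => g (Sum.inl t)) ?_ t
        have h1 := congrArg (kill K (Sum.inl b)) hg
        rw [map_zero, map_sum, Fintype.sum_sum_type] at h1
        have h2 : ∑ t : T₁, kill K (Sum.inl b) (aeval (th K e f b b') (g (Sum.inr t)) * β (Sum.inr t))
            = 0 := by
          refine Finset.sum_eq_zero fun t _ => ?_
          simp [hβ, kill]
        rw [h2, add_zero] at h1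
        rw [← h1]
        refine Finset.sum_congr rfl fun t _ => ?_
        rw [map_mul, kill_inl_aeval_th]
        simp only [hβ, Sum.elim_inl]
        rw [kill_inl_eq (hβ₂ t)]
      have f2 : ∀ t, res K (b + b') (e + f) (g (Sum.inl t))
          = X (b + b') * (res K (b + b') (e + f) (g (Sum.inl t))).divMonomial
            (Finsupp.single (b + b') 1) := by
        intro t
        conv_lhs => rw [← kill_add_div (b + b') (res K (b + b') (e + f) (g (Sum.inl t))), r2 t,
          add_zero]
      set h2 : T₂ → MvPolynomial ℕ K := fun t =>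
        (res K (b + b') (e + f) (g (Sum.inl t))).divMonomial (Finsupp.single (b + b') 1) with hh2
      have hres : ∀ g : MvPolynomial ℕ K, aeval (th K e f b b') (res K (b + b') (e + f) g)
          = aeval (th K e f b b') g := aeval_res fun l hl => th_eq_zero hl
      have e2 : ∀ t, aeval (th K e f b b') (g (Sum.inl t))
          = X (Sum.inl b) * (X (Sum.inr b') * aeval (th K e f b b') (h2 t)) := by
        intro t
        rw [← hres, f2 t, map_mul, aeval_X, th_bot hb.le hb'.le, mul_assoc]
      -- divide by the variable U_b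
      have h3 : ∑ t : T₂, X (Sum.inr b') * (aeval (th K e f b b') (h2 t) * β₂ t)
          + ∑ t : T₁, aeval (th K e f b b') (g (Sum.inr t)) * β₁ t = 0 := by
        apply X_mul_cancel (v := Sum.inl b)
        rw [← hg, Fintype.sum_sum_type, mul_add, Finset.mul_sum, Finset.mul_sum]
        congr 1
        · refine Finset.sum_congr rfl fun t _ => ?_
          rw [e2 t]
          simp only [hβ, Sum.elim_inl]
          ring
        · refine Finset.sum_congr rfl fun t _ => ?_
          simp only [hβ, Sum.elim_inr]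
          ring
      -- then the elements of T₁
      have r1 : ∀ t, kill K (b + b') (res K (b + b') (e + f) (g (Sum.inr t))) = 0 := by
        intro t
        rw [kill_res, ← hlo']
        refine inj₁ (fun t => g (Sum.inr t)) ?_ t
        have h1 := congrArg (kill K (Sum.inr b')) h3
        rw [map_zero, map_add, map_sum, map_sum] at h1
        have h2' : ∑ t : T₂, kill K (Sum.inr b') (X (Sum.inr b')
            * (aeval (th K e f b b') (h2 t) * β₂ t)) = 0 := by
          refine Finset.sum_eq_zero fun t _ => ?_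
          simp [kill]
        rw [h2', zero_add] at h1
        rw [← h1]
        refine Finset.sum_congr rfl fun t _ => ?_
        rw [map_mul, kill_inr_aeval_th, kill_inr_eq (hβ₁ t)]
      have f1 : ∀ t, res K (b + b') (e + f) (g (Sum.inr t))
          = X (b + b') * (res K (b + b') (e + f) (g (Sum.inr t))).divMonomial
            (Finsupp.single (b + b') 1) := by
        intro t
        conv_lhs => rw [← kill_add_div (b + b') (res K (b + b') (e + f) (g (Sum.inr t))), r1 t,
          add_zero]
      refine ⟨fun t => (res K (b + b') (e + f) (g t)).divMonomial (Finsupp.single (b + b') 1), ?_, ?_⟩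
      · rintro (t | t)
        · exact f2 t
        · exact f1 t
      · apply X_mul_cancel (v := Sum.inr b')
        apply X_mul_cancel (v := Sum.inl b)
        rw [← hg, Finset.mul_sum, Finset.mul_sum]
        refine Finset.sum_congr rfl fun t _ => ?_
        have h4 : aeval (th K e f b b') (g t) = X (Sum.inl b) * (X (Sum.inr b')
            * aeval (th K e f b b') ((res K (b + b') (e + f) (g t)).divMonomial
              (Finsupp.single (b + b') 1))) := by
          have h5 : res K (b + b') (e + f) (g t) = X (b + b')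
              * (res K (b + b') (e + f) (g t)).divMonomial (Finsupp.single (b + b') 1) := by
            rcases t with t | t
            · exact f2 t
            · exact f1 t
          rw [← hres (g t)]
          conv_lhs => rw [h5]
          rw [map_mul, aeval_X, th_bot hb.le hb'.le, mul_assoc]
        rw [h4]
        ring
    have key2 : ∀ m : ℕ, ∀ g : T₂ ⊕ T₁ → MvPolynomial ℕ K,
        ∑ t, aeval (th K e f b b') (g t) * β t = 0 →
        ∀ t, ∃ q, res K (b + b') (e + f) (g t) = X (b + b') ^ m * q := by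
      intro m
      induction m with
      | zero => exact fun g _ t => ⟨_, by rw [pow_zero, one_mul]⟩
      | succ m ih =>
        intro g hg t
        obtain ⟨h, h1, h2⟩ := key g hg
        obtain ⟨q, hq⟩ := ih h h2 t
        refine ⟨q, ?_⟩
        have h3 : res K (b + b') (e + f) (X (b + b')) = X (b + b') := by
          rw [res, aeval_X, if_pos (by omega)]
        rw [← res_res, h1 t, map_mul, h3, hq, pow_succ]
        ring
    intro g hg t
    exact eq_zero_of_dvd_pow fun m => key2 m g hg t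
  · -- generation
    intro n
    induction n using Nat.strong_induction_on with
    | _ n ih =>
    have step0 : ∀ q, q ∈ M K e f b b' (s + 1) (s' + 1) n →
        X (Sum.inl b) * (X (Sum.inr b') * q) ∈ W e f b b' d β n := fun q hq =>
      X_pair_mem_W hb.le hb'.le ih hq
    have step1 : ∀ q, q ∈ M K e f b b' (s + 1) s' n → X (Sum.inl b) * q ∈ W e f b b' d β n := by
      intro q hq
      rw [← kill_add_div (Sum.inr b') q, mul_add]
      refine Submodule.add_mem _ (step0 _ (div_inr_mem hq)) ?_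
      obtain ⟨g, hg, hgq⟩ := span₁ n _ (kill_inr_mem hq)
      set r := ∑ t, aeval (th K e f b b') (g t) * β₁ t with hr
      have h1 : kill K (Sum.inr b') r = kill K (Sum.inr b') q := by
        rw [hgq, hr, map_sum]
        refine Finset.sum_congr rfl fun t _ => ?_
        rw [map_mul, kill_inr_aeval_th, kill_inr_eq (hβ₁ t)]
      have h2 : r ∈ M K e f b b' (s + 1) s' n :=
        Submodule.sum_mem _ fun t _ => aeval_mem (M_mono_inr (hβ₁ t)) (hg t)
      have h3 : X (Sum.inl b) * kill K (Sum.inr b') q = X (Sum.inl b) * r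
          - X (Sum.inl b) * (X (Sum.inr b') * r.divMonomial (Finsupp.single (Sum.inr b') 1)) := by
        rw [← h1]
        conv_rhs => rw [← kill_add_div (Sum.inr b') r]
        rw [kill_add_div (Sum.inr b') r]
        have := kill_add_div (Sum.inr b') r
        linear_combination X (Sum.inl b) * this
      rw [h3]
      exact Submodule.sub_mem _ (hinr g n hg) (step0 _ (div_inr_mem h2))
    intro p hp
    rw [← kill_add_div (Sum.inl b) p]
    refine Submodule.add_mem _ (step1 _ (div_inl_mem hp)) ?_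
    obtain ⟨g, hg, hgq⟩ := span₂ n _ (kill_inl_mem hp)
    set r := ∑ t, aeval (th K e f b b') (g t) * β₂ t with hr
    have h1 : kill K (Sum.inl b) r = kill K (Sum.inl b) p := by
      rw [hgq, hr, map_sum]
      refine Finset.sum_congr rfl fun t _ => ?_
      rw [map_mul, kill_inl_aeval_th, kill_inl_eq (hβ₂ t)]
    have h2 : r ∈ M K e f b b' s s' n :=
      Submodule.sum_mem _ fun t _ => aeval_mem (M_mono_inl (hβ₂ t)) (hg t)
    have h3 : kill K (Sum.inl b) p = r
        - X (Sum.inl b) * r.divMonomial (Finsupp.single (Sum.inl b) 1) := by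
      rw [← h1]
      have := kill_add_div (Sum.inl b) r
      linear_combination this
    rw [h3]
    exact Submodule.sub_mem _ (hinl g n hg) (step1 _ (div_inl_mem h2))

/-! ### Exchange of the two factors -/

/-- Exchange of the variables. -/
def sw (K : Type*) [CommRing K] : MvPolynomial (ℕ ⊕ ℕ) K →ₐ[K] MvPolynomial (ℕ ⊕ ℕ) K :=
  rename Sum.swap

lemma sw_sw (p : MvPolynomial (ℕ ⊕ ℕ) K) : sw K (sw K p) = p := by
  rw [sw, rename_rename, Sum.swap_swap_eq, rename_id_apply]

lemma sw_th (l : ℕ) : sw K (th K e f b b' l) = th K f e b' b l := by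
  rw [th, th, map_sum, Finset.sum_comm]
  simp only [map_sum]
  rw [Finset.sum_comm]
  rw [Finset.sum_comm]
  refine Finset.sum_congr rfl fun j _ => Finset.sum_congr rfl fun i _ => ?_
  by_cases h : i + j = l
  · rw [if_pos h, if_pos (by omega)]
    simp only [sw, map_mul, rename_X, Sum.swap_inl, Sum.swap_inr]
    ring
  · rw [if_neg h, if_neg (by omega), map_zero]

lemma sw_aeval (g : MvPolynomial ℕ K) :
    sw K (aeval (th K e f b b') g) = aeval (th K f e b' b) g := by
  have : (sw K).comp (aeval (th K e f b b')) = aeval (th K f e b' b) := by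
    apply algHom_ext
    intro l
    rw [AlgHom.comp_apply, aeval_X, aeval_X, sw_th]
  exact DFunLike.congr_fun this g

lemma dU_swap (x : ℕ ⊕ ℕ →₀ ℕ) : dU (x.mapDomain Sum.swap) = dV x := by
  have : dU.comp (Finsupp.mapDomain.addMonoidHom Sum.swap) = dV := by
    ext v
    rcases v with v | v <;> simp
  exact DFunLike.congr_fun this x

lemma dV_swap (x : ℕ ⊕ ℕ →₀ ℕ) : dV (x.mapDomain Sum.swap) = dU x := by
  have : dV.comp (Finsupp.mapDomain.addMonoidHom Sum.swap) = dU := by
    ext v
    rcases v with v | v <;> simp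
  exact DFunLike.congr_fun this x

lemma swap_inj : Function.Injective (Sum.swap : ℕ ⊕ ℕ → ℕ ⊕ ℕ) :=
  Sum.swap_leftInverse.injective

lemma sw_mem {n : ℕ} {p : MvPolynomial (ℕ ⊕ ℕ) K} (hp : p ∈ M K e f b b' s s' n) :
    sw K p ∈ M K f e b' b s' s n := by
  rw [mem_M] at hp ⊢
  intro x hx
  obtain ⟨u, rfl, hu⟩ := coeff_rename_ne_zero _ _ _ hx
  obtain ⟨h1, h2, h3, h4⟩ := hp u hu
  refine ⟨fun j hj => h2 j ?_, fun j hj => h1 j ?_, ?_, ?_⟩
  · rwa [show (Sum.inl j : ℕ ⊕ ℕ) = Sum.swap (Sum.inr j) from rfl,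
      Finsupp.mapDomain_apply swap_inj] at hj
  · rwa [show (Sum.inr j : ℕ ⊕ ℕ) = Sum.swap (Sum.inl j) from rfl,
      Finsupp.mapDomain_apply swap_inj] at hj
  · rw [dU_swap]; exact h4
  · rw [dV_swap]; exact h3

theorem Free.swap (h : Free K e f b b' s s' c) : Free K f e b' b s' s c := by
  obtain ⟨T, hT, d, β, hd, hβ, inj, span⟩ := h
  refine ⟨T, hT, d, fun t => sw K (β t), fun t => ?_, fun t => sw_mem (hβ t), ?_, ?_⟩
  · have := hd t
    omega
  · intro g hg
    rw [add_comm b' b, add_comm f e]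
    refine inj g ?_
    have h1 := congrArg (sw K) hg
    rw [map_zero, map_sum] at h1
    rw [← h1]
    refine Finset.sum_congr rfl fun t _ => ?_
    rw [map_mul, sw_aeval, sw_sw]
  · intro n p hp
    obtain ⟨g, hg, h1⟩ := span n _ (sw_mem hp)
    refine ⟨g, hg, ?_⟩
    have h2 := congrArg (sw K) h1
    rw [sw_sw, map_sum] at h2
    rw [h2]
    refine Finset.sum_congr rfl fun t _ => ?_
    rw [map_mul, sw_aeval]

/-! ### The base case -/

lemma exists_inl {x : ℕ ⊕ ℕ →₀ ℕ} (h : dU x ≠ 0) : ∃ i, x (Sum.inl i) ≠ 0 := by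
  by_contra hcon
  push Not at hcon
  apply h
  rw [dU, Finsupp.liftAddHom_apply, Finsupp.sum]
  refine Finset.sum_eq_zero fun v _ => ?_
  rcases v with v | v
  · rw [hcon v]; simp
  · rfl

lemma exists_inr {x : ℕ ⊕ ℕ →₀ ℕ} (h : dV x ≠ 0) : ∃ i, x (Sum.inr i) ≠ 0 := by
  by_contra hcon
  push Not at hcon
  apply h
  rw [dV, Finsupp.liftAddHom_apply, Finsupp.sum]
  refine Finset.sum_eq_zero fun v _ => ?_
  rcases v with v | v
  · rfl
  · rw [hcon v]; simp

lemma inr_eq_zero {x : ℕ ⊕ ℕ →₀ ℕ} (h : dV x = 0) (j : ℕ) : x (Sum.inr j) = 0 := by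
  by_contra hj
  have hle : Finsupp.single (Sum.inr j) 1 ≤ x := by
    rw [Finsupp.single_le_iff]; omega
  have : dV x = dV (x - Finsupp.single (Sum.inr j) 1) + 1 := by
    conv_lhs => rw [← tsub_add_cancel_of_le hle]
    rw [map_add, dV_single_inr]
  omega

lemma th_top {l : ℕ} (hl : e + b' ≤ l) (hl' : l ≤ e + f) :
    th K e f e b' l = X (Sum.inl e) * X (Sum.inr (l - e)) := by
  rw [th, Finset.sum_eq_single_of_mem e (Finset.mem_Icc.2 ⟨le_rfl, le_rfl⟩),
    Finset.sum_eq_single_of_mem (l - e) (Finset.mem_Icc.2 (by omega))]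
  · rw [if_pos (by omega)]
  · intro j hj hne
    rw [if_neg (by omega)]
  · intro i hi hne
    rw [Finset.mem_Icc] at hi
    omega

/-- The exponent vectors without `V`. -/
lemma mon_base {n : ℕ} {x : ℕ ⊕ ℕ →₀ ℕ} (hs : s ≤ s') (hx : x ∈ Mon e f e b' s s' n)
    (hv : dV x = 0) : n = s' ∧ x = Finsupp.single (Sum.inl e) (s' - s) := by
  obtain ⟨h1, h2, h3, h4⟩ := hx
  have hn : n = s' := by omega
  refine ⟨hn, ?_⟩
  have hx : x = Finsupp.single (Sum.inl e) (x (Sum.inl e)) := by
    ext v
    rcases v with v | v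
    · by_cases hve : v = e
      · subst hve; simp
      · rw [Finsupp.single_apply, if_neg (by simpa using Ne.symm hve)]
        by_contra h
        have := h1 v h
        omega
    · rw [inr_eq_zero hv v, Finsupp.single_apply, if_neg (by simp)]
  have h5 : dU x = x (Sum.inl e) := by
    conv_lhs => rw [hx]
    rw [dU_single_inl]
  rw [hx]
  congr 1
  rw [← h5]
  omega

/-- Division of an exponent vector by the exponent vector of a parameter. -/
lemma mon_succ {n : ℕ} {x : ℕ ⊕ ℕ →₀ ℕ} (hs : s ≤ s') (hx : x ∈ Mon e f e b' s s' n)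
    (hv : dV x ≠ 0) : ∃ m j y, n = m + 1 ∧ b' ≤ j ∧ j ≤ f ∧ y ∈ Mon e f e b' s s' m ∧
      x = y + (Finsupp.single (Sum.inl e) 1 + Finsupp.single (Sum.inr j) 1) := by
  obtain ⟨h1, h2, h3, h4⟩ := hx
  obtain ⟨j, hj⟩ := exists_inr hv
  obtain ⟨i, hi⟩ := exists_inl (x := x) (by omega)
  have hie : i = e := by have := h1 i hi; omega
  subst hie
  have hj' := h2 j hj
  have hle : Finsupp.single (Sum.inl i) 1 + Finsupp.single (Sum.inr j) 1 ≤ x := by
    intro v
    rw [Finsupp.add_apply, Finsupp.single_apply, Finsupp.single_apply]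
    rcases v with v | v
    · rw [if_neg (c := Sum.inr j = Sum.inl v) (by simp), add_zero]
      split_ifs with h
      · rw [← h]; omega
      · omega
    · rw [if_neg (c := Sum.inl i = Sum.inr v) (by simp), zero_add]
      split_ifs with h
      · rw [← h]; omega
      · omega
  set y := x - (Finsupp.single (Sum.inl i) 1 + Finsupp.single (Sum.inr j) 1) with hy
  have hx : x = y + (Finsupp.single (Sum.inl i) 1 + Finsupp.single (Sum.inr j) 1) :=
    (tsub_add_cancel_of_le hle).symm
  have e1 : dU x = dU y + 1 := by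
    rw [hx, map_add, map_add, dU_single_inl, dU_single_inr]
  have e2 : dV x = dV y + 1 := by
    rw [hx, map_add, map_add, dV_single_inl, dV_single_inr, zero_add]
  have hyx : ∀ v, y v ≤ x v := fun v => by rw [hx, Finsupp.add_apply]; omega
  refine ⟨n - 1, j, y, by omega, hj'.1, hj'.2, ⟨fun v hv => h1 v ?_, fun v hv => h2 v ?_,
    by omega, by omega⟩, hx⟩
  · have := hyx (Sum.inl v)
    omega
  · have := hyx (Sum.inr v)
    omega

theorem Free.base (hs : s ≤ s') (hs' : s' ≤ s + (f - b')) :
    Free K e f e b' s s' s := by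
  classical
  refine ⟨Unit, inferInstance, fun _ => s', fun _ => X (Sum.inl e) ^ (s' - s), fun _ => ?_,
    fun _ => ?_, ?_, ?_⟩
  · show s ≤ s' ∧ s' ≤ s + (e - e) + (f - b')
    omega
  · rw [mem_M]
    intro x hx
    rw [coeff_X_pow] at hx
    split_ifs at hx with h
    · subst h
      refine ⟨fun j hj => ?_, fun j hj => ?_, ?_, ?_⟩
      · rw [Finsupp.single_apply] at hj
        split_ifs at hj with h
        · rw [Sum.inl.injEq] at h; omega
        · exact absurd rfl hj
      · rw [Finsupp.single_apply, if_neg (by simp)] at hj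
        exact absurd rfl hj
      · rw [dU_single_inl]
        show s' - s + s = s'
        omega
      · rw [dV_single_inl]
        show 0 + s' = s'
        omega
    · exact absurd rfl hx
  · intro g hg t
    rw [Fintype.sum_unique] at hg
    have h1 : aeval (th K e f e b') (g default) = 0 := by
      have key : ∀ (k : ℕ) (q : MvPolynomial (ℕ ⊕ ℕ) K), q * X (Sum.inl e) ^ k = 0 → q = 0 := by
        intro k
        induction k with
        | zero => intro q hq; rwa [pow_zero, mul_one] at hq
        | succ k ih =>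
          intro q hq
          apply ih
          apply X_mul_cancel (v := Sum.inl e)
          rw [← hq]
          ring
      exact key _ _ hg
    have h2 := congrArg (aeval (Sum.elim (fun _ => 1) fun j => X (e + j)) :
      MvPolynomial (ℕ ⊕ ℕ) K →ₐ[K] MvPolynomial ℕ K) h1
    rw [map_zero] at h2
    have h3 : (aeval (Sum.elim (fun _ => 1) fun j => X (e + j)) :
        MvPolynomial (ℕ ⊕ ℕ) K →ₐ[K] MvPolynomial ℕ K).comp (aeval (th K e f e b'))
        = res K (e + b') (e + f) := by
      apply algHom_ext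
      intro l
      rw [AlgHom.comp_apply, aeval_X, res, aeval_X]
      split_ifs with h
      · rw [th_top h.1 h.2, map_mul, aeval_X, aeval_X]
        simp only [Sum.elim_inl, Sum.elim_inr, one_mul]
        rw [show e + (l - e) = l by omega]
      · rw [th_eq_zero h, map_zero]
    have h4 := DFunLike.congr_fun h3 (g default)
    rw [AlgHom.comp_apply] at h4
    rw [show t = default from rfl, ← h4, h2]
  · have key : ∀ (n : ℕ) (x : ℕ ⊕ ℕ →₀ ℕ) (a : K), x ∈ Mon e f e b' s s' n →
        monomial x a ∈ W e f e b' (fun _ : Unit => s') (fun _ => X (Sum.inl e) ^ (s' - s)) n := by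
      intro n
      induction n using Nat.strong_induction_on with
      | _ n ih =>
      intro x a hx
      by_cases hv : dV x = 0
      · obtain ⟨rfl, rfl⟩ := mon_base hs hx hv
        refine ⟨fun _ => C a, fun _ y hy => ?_, ?_⟩
        · rw [coeff_C] at hy
          split_ifs at hy with h
          · rw [← h]; simp
          · exact absurd rfl hy
        · rw [Fintype.sum_unique, aeval_C, algebraMap_eq, X_pow_eq_monomial, C_mul_monomial, mul_one]
      · obtain ⟨m, j, y, rfl, hj, hj', hy, rfl⟩ := mon_succ hs hx hv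
        have h1 : (monomial (y + (Finsupp.single (Sum.inl e) 1 + Finsupp.single (Sum.inr j) 1)) a
            : MvPolynomial (ℕ ⊕ ℕ) K) = th K e f e b' (e + j) * monomial y a := by
          rw [th_top (by omega) (by omega), show e + j - e = j by omega, X, X, monomial_mul,
            monomial_mul, one_mul, one_mul, add_comm]
        rw [h1]
        exact th_mul_W _ (ih m (by omega) y a hy)
    intro n p hp
    rw [mem_M] at hp
    rw [p.as_sum]
    exact Submodule.sum_mem _ fun x hx => key n x _ (hp x (mem_support_iff.1 hx))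

end step

/-- **Freeness of the Segre modules of two factors.** -/
theorem free_two (K : Type*) [CommRing K] (k : ℕ) : ∀ (e f b b' s s' c : ℕ), b ≤ e → b' ≤ f →
    (e - b) + (f - b') = k → c ≤ s → s ≤ c + (e - b) → c ≤ s' → s' ≤ c + (f - b') →
    Free K e f b b' s s' c := by
  induction k using Nat.strong_induction_on with
  | _ k ih =>
  -- the recursion under the first condition
  have hrec : ∀ (e f b b' s s' c : ℕ), b < e → b' < f → (e - b) + (f - b') = k → c ≤ s →
      s ≤ c + (e - b) → c ≤ s' → s' ≤ c + (f - b') → (c + 1 ≤ s' ∨ s + 1 ≤ c + (e - b)) →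
      Free K e f b b' s s' c := by
    intro e f b b' s s' c hb hb' hk h1 h2 h3 h4 h5
    obtain ⟨c₂, hc₂, hc₂', h₂⟩ : ∃ c₂, c ≤ c₂ ∧ c₂ ≤ c + 1 ∧ Free K e f (b + 1) b' s s' c₂ := by
      by_cases h : s + 1 ≤ c + (e - b)
      · exact ⟨c, le_rfl, by omega, ih _ (by omega) e f (b + 1) b' s s' c hb hb'.le rfl h1
          (by omega) h3 h4⟩
      · exact ⟨c + 1, by omega, le_rfl, ih _ (by omega) e f (b + 1) b' s s' (c + 1) hb hb'.le rfl
          (by omega) (by omega) (by omega) (by omega)⟩
    obtain ⟨c₁, hc₁, hc₁', h₁⟩ : ∃ c₁, c ≤ c₁ ∧ c₁ ≤ c + 1 ∧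
        Free K e f b (b' + 1) (s + 1) s' c₁ := by
      by_cases h : c + 1 ≤ s'
      · exact ⟨c + 1, by omega, le_rfl, ih _ (by omega) e f b (b' + 1) (s + 1) s' (c + 1) hb.le hb'
          rfl (by omega) (by omega) (by omega) (by omega)⟩
      · exact ⟨c, le_rfl, by omega, ih _ (by omega) e f b (b' + 1) (s + 1) s' c hb.le hb' rfl
          (by omega) (by omega) (by omega) (by omega)⟩
    exact Free.step hb hb' hc₁ hc₁' hc₂ hc₂' h₂ h₁
  intro e f b b' s s' c hb hb' hk h1 h2 h3 h4
  by_cases hbe : b = e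
  · subst hbe
    have : s = c := by omega
    subst this
    exact Free.base h3 h4
  by_cases hbf : b' = f
  · subst hbf
    have : s' = c := by omega
    subst this
    exact (Free.base h1 h2).swap
  by_cases h5 : c + 1 ≤ s' ∨ s + 1 ≤ c + (e - b)
  · exact hrec e f b b' s s' c (by omega) (by omega) hk h1 h2 h3 h4 h5
  · exact (hrec f e b' b s' s c (by omega) (by omega) (by omega) h3 h4 h1 h2 (by omega)).swap

end

end Pool.Agent.T9h74.Gor
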